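import Mathlib

/-!
# Homological rotation sets on closed surfaces: definitions

First part: isotopies, displacement functions, homological rotation set.
Second part: the data of the construction (a rotation, two slits, a `(ℤ/3)²`-cover of the torus).
-/

open Topology Filter Set
open scoped unitInterval

namespace Pool.Agent.helper18.Rot

/-! ### Isotopies and the homological rotation set -/

/-- An isotopy from the identity: a continuous map `[0,1] × S → S`, `(t,x) ↦ f_t(x)`, such that
every `f_t` is a homeomorphism and `f_0 = id`. -/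
structure IdIsotopy (S : Type) [TopologicalSpace S] where
  /-- the map `(t,x) ↦ f_t(x)` -/
  toMap : C(I × S, S)
  zero : ∀ x, toMap (0, x) = x
  homeo : ∀ t, IsHomeomorph fun x => toMap (t, x)

namespace IdIsotopy

variable {S : Type} [TopologicalSpace S] (F : IdIsotopy S)

/-- The end map `f = f_1` of the isotopy. -/
def f (x : S) : S := F.toMap (1, x)

/-- `D x` is the displacement of `h : S → ℝ/ℤ` along the path `t ↦ f_t(x)`: there is a continuous
`H : [0,1] × S → ℝ` with `H(0,x) = 0` and `h(f_t(x)) = h(x) + H(t,x) mod 1`, and `D x = H(1,x)`. -/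
def IsDisp (h : C(S, UnitAddCircle)) (D : S → ℝ) : Prop :=
  ∃ H : C(I × S, ℝ), (∀ x, H (0, x) = 0) ∧
    (∀ t x, h (F.toMap (t, x)) = h x + ((H (t, x) : ℝ) : UnitAddCircle)) ∧ ∀ x, D x = H (1, x)

/-- The homological rotation set of the isotopy.  A class in `H_1(S;ℝ)` is given by its pairings
with all `h : S → ℝ/ℤ` (recall `H^1(S;ℤ) = [S, ℝ/ℤ]` and `H_1(S;ℝ) = Hom(H^1(S;ℤ), ℝ)`). -/
def rotSet : Set (C(S, UnitAddCircle) → ℝ) :=
  {v | ∃ (x : ℕ → S) (n : ℕ → ℕ), Tendsto n atTop atTop ∧ ∀ h D, F.IsDisp h D →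
    Tendsto (fun k => (∑ i ∈ Finset.range (n k), D (F.f^[i] (x k))) / n k) atTop (𝓝 (v h))}

end IdIsotopy

/-- The first Betti number of `S` is at least `n`: there are `n` maps `h_i : S → ℝ/ℤ` and `n` loops
`γ_j` in `S` such that the degree of `h_i ∘ γ_j` is `1` if `i = j` and `0` otherwise. -/
def BettiGe (S : Type) [TopologicalSpace S] (n : ℕ) : Prop :=
  ∃ (h : Fin n → C(S, UnitAddCircle)) (γ : Fin n → C(I, S)), (∀ j, γ j 0 = γ j 1) ∧
    ∀ i j, ∃ θ : C(I, ℝ), (∀ t, ((θ t : ℝ) : UnitAddCircle) = h i (γ j t)) ∧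
      θ 1 - θ 0 = if i = j then 1 else 0

/-! ### Data of the construction -/

/-- Rotation number `al` and two slits `[lo 0, hi 0]`, `[lo 1, hi 1]` in `[0,1/8)`. -/
structure Par where
  al : ℝ
  lo : Fin 2 → ℝ
  hi : Fin 2 → ℝ
  al_pos : 0 < al
  al_lt : al < 1 / 8
  lo_nonneg : 0 ≤ lo 0
  lo_hi : ∀ i, lo i < hi i
  hi_lo : hi 0 < lo 1
  hi_lt : hi 1 < 1 / 8

/-- The group of sheets. -/
abbrev Ga : Type := Fin 2 → ZMod 3

namespace Par

variable (P : Par)

/-- Change of the sheet when crossing height `0` at `x ∈ [0,1)`. -/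
noncomputable def inc (x : ℝ) : Ga := fun i => if P.lo i ≤ x ∧ x < P.hi i then 1 else 0

/-- Orbit of the rotation by `al`, in `[0,1)`. -/
noncomputable def orb (x : ℝ) (i : ℕ) : ℝ := Int.fract (x + i * P.al)

/-- Sheet after the crossings number `0,…,n-1`, starting in sheet `0`. -/
noncomputable def Lab (x : ℝ) (n : ℕ) : Ga := ∑ i ∈ Finset.range n, P.inc (P.orb x i)

/-- Number of `i < n` such that the sheet after crossing number `i` is `g`. -/
noncomputable def Cnt (x : ℝ) (n : ℕ) (g : Ga) : ℕ :=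
  ((Finset.range n).filter fun i => P.Lab x (i + 1) = g).card

/-- Distance (on the circle) of the `i`-th orbit point to the end points of slit `j`. -/
noncomputable def dlo (x : ℝ) (i : ℕ) (j : Fin 2) : ℝ :=
  ‖((x + i * P.al - P.lo j : ℝ) : UnitAddCircle)‖

/-- Distance (on the circle) of the `i`-th orbit point to the end points of slit `j`. -/
noncomputable def dhi (x : ℝ) (i : ℕ) (j : Fin 2) : ℝ :=
  ‖((x + i * P.al - P.hi j : ℝ) : UnitAddCircle)‖

/-- Sum of `log (1 / distance)` over the first `n` orbit points and the four end points. -/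
noncomputable def cost (x : ℝ) (n : ℕ) : ℝ :=
  ∑ i ∈ Finset.range n, ∑ j, (-Real.log (P.dlo x i j) - Real.log (P.dhi x i j))

/-! ### The surface -/

/-- Centre of slit `i`. -/
noncomputable def c (i : Fin 2) : ℝ := (P.lo i + P.hi i) / 2
/-- Half length of slit `i`. -/
noncomputable def r (i : Fin 2) : ℝ := (P.hi i - P.lo i) / 2

/-- Signed distance of `x` to slit `i`: negative inside, zero at the end points. -/
noncomputable def dl (i : Fin 2) (x : UnitAddCircle) : ℝ := ‖x - (P.c i : UnitAddCircle)‖ - P.r i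

/-- The tent function: `y` for `|y| ≤ 1/4`, `1/2 - y` for `1/4 ≤ y ≤ 1/2`, odd. -/
noncomputable def tent (y : UnitAddCircle) : ℝ := 1 / 4 - ‖y - ((1 / 4 : ℝ) : UnitAddCircle)‖

/-- The functions `G_i : 𝕋² → ℂ`, with `G_i ∈ (-∞,0]` exactly on slit `i` (at height `y = 0`). -/
noncomputable def G (i : Fin 2) (q : UnitAddCircle × UnitAddCircle) : ℂ :=
  ⟨P.dl i q.1 + max 0 (‖q.2‖ - 1 / 8), - tent q.2⟩

/-- The surface `S = {(x,y,w_0,w_1) : w_i³ = G_i(x,y)}`. -/
def Surf : Type := {p : (UnitAddCircle × UnitAddCircle) × (Fin 2 → ℂ) // ∀ i, p.2 i ^ 3 = P.G i p.1}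

instance : TopologicalSpace P.Surf :=
  inferInstanceAs (TopologicalSpace {p : (UnitAddCircle × UnitAddCircle) × (Fin 2 → ℂ) //
    ∀ i, p.2 i ^ 3 = P.G i p.1})

/-- Principal cube root. -/
noncomputable def cb (z : ℂ) : ℂ := z ^ (1 / 3 : ℂ)

/-- Primitive cube root of unity `exp(2πi/3)`. -/
noncomputable def om : ℂ := Complex.exp (2 * Real.pi * Complex.I / 3)

/-- Linear motion on the torus in direction `(al,1)`. -/
noncomputable def mv (t : ℝ) (q : UnitAddCircle × UnitAddCircle) : UnitAddCircle × UnitAddCircle :=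
  (q.1 + ((P.al * t : ℝ) : UnitAddCircle), q.2 + ((t : ℝ) : UnitAddCircle))

/-- Step size. -/
noncomputable def tau (q : UnitAddCircle × UnitAddCircle) : ℝ := (1 / 100) * min ‖P.G 0 q‖ ‖P.G 1 q‖

/-- Motion on the surface during time `t`, described in `(𝕋²) × ℂ²`; meant for
`0 ≤ t ≤ tau`. -/
noncomputable def psi (t : ℝ) (p : (UnitAddCircle × UnitAddCircle) × (Fin 2 → ℂ)) :
    (UnitAddCircle × UnitAddCircle) × (Fin 2 → ℂ) :=
  (P.mv t p.1, fun i => p.2 i * cb (P.G i (P.mv t p.1) / P.G i p.1))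

/-- Number of the sheet: `w = om ^ j * cb g`. -/
noncomputable def lb (g w : ℂ) : ZMod 3 := if w = cb g then 0 else if w = om * cb g then 1 else 2

/-- Sheet of a point of the surface. -/
noncomputable def sheet (p : P.Surf) : Ga := fun i => lb (P.G i p.1.1) (p.1.2 i)

/-- The height `y` of a point, as a number in `(0,1]`. -/
noncomputable def yl (y : UnitAddCircle) : ℝ := (AddCircle.equivIoc (1 : ℝ) 0 y : ℝ)

/-- The cut-off function, `0` on `[0,1/4]`, `1` on `[3/4,∞)`. -/
noncomputable def chi (y : ℝ) : ℝ := max 0 (min 1 (2 * y - 1 / 2))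

end Par

end Pool.Agent.helper18.Rot
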