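import Mathlib
import Pool.Agent.helper18.Rot.Defs

/-!
# Convergent subsequences of averaged displacements
-/

open Topology Filter Set
open scoped unitInterval

namespace Pool.Agent.helper18.Rot

/-- a continuous function with integer values vanishing at `0` vanishes -/
theorem eq_zero_of_coe (u : I → ℝ) (hu : Continuous u)
    (h : ∀ t, ((u t : ℝ) : UnitAddCircle) = 0) (h0 : u 0 = 0) (t : I) : u t = 0 := by
  have hint : ∀ t, ∃ n : ℤ, (n : ℝ) = u t := by
    intro t
    obtain ⟨n, hn⟩ := (AddCircle.coe_eq_zero_iff (1 : ℝ)).1 (h t)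
    exact ⟨n, by simpa using hn⟩
  have hcl : IsClopen {t | u t = 0} := by
    refine ⟨isClosed_eq hu continuous_const, ?_⟩
    have : {t | u t = 0} = {t | |u t| < 1 / 2} := by
      ext t
      simp only [mem_ofPred_eq]
      constructor
      · intro h; rw [h]; norm_num
      · intro h
        obtain ⟨n, hn⟩ := hint t
        rw [← hn] at h ⊢
        have h2 : |(n : ℝ)| < 1 := by linarith
        have h3 : |n| < 1 := by exact_mod_cast h2
        have : n = 0 := Int.abs_lt_one_iff.mp h3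
        simp [this]
    rw [this]
    exact isOpen_lt (hu.abs) continuous_const
  have := hcl.eq_univ ⟨0, h0⟩
  have ht : t ∈ {t | u t = 0} := by rw [this]; trivial
  exact ht

variable {S : Type} [TopologicalSpace S] (F : IdIsotopy S)

theorem disp_unique {h : C(S, UnitAddCircle)} {D D' : S → ℝ} (hD : F.IsDisp h D)
    (hD' : F.IsDisp h D') : D = D' := by
  obtain ⟨H, H0, H1, H2⟩ := hD
  obtain ⟨K, K0, K1, K2⟩ := hD'
  funext x
  rw [H2, K2]
  have := eq_zero_of_coe (fun t => H (t, x) - K (t, x)) (by fun_prop) (fun t => by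
    have e1 := H1 t x
    have e2 := K1 t x
    rw [e1] at e2
    have e3 := add_left_cancel e2
    rw [AddCircle.coe_sub, e3, sub_self]) (by simp [H0, K0]) 1
  linarith

theorem zero_disp : F.IsDisp 0 (fun _ => 0) := ⟨0, by simp, by simp, by simp⟩

/-- if `h` and `h'` are uniformly close, then the displacements differ by a coboundary -/
theorem disp_close [CompactSpace S] {h h' : C(S, UnitAddCircle)} {D D' : S → ℝ}
    (hD : F.IsDisp h D) (hD' : F.IsDisp h' D') (hd : dist h h' < 1 / 4) :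
    ∃ u : S → ℝ, (∀ x, |u x| ≤ 1 / 2) ∧ ∀ x, D x - D' x = u (F.f x) - u x := by
  have hclose : ∀ x, ‖h x - h' x‖ < 1 / 4 := by
    intro x
    rw [← dist_eq_norm]
    exact (ContinuousMap.dist_apply_le_dist x).trans_lt hd
  set u : S → ℝ := fun x => (AddCircle.equivIco (1 : ℝ) (-1 / 2) (h x - h' x) : ℝ) with hu
  have hcoe : ∀ x, ((u x : ℝ) : UnitAddCircle) = h x - h' x := fun x =>
    AddCircle.coe_equivIco (p := (1 : ℝ)) (a := -1 / 2)
  have hbd : ∀ x, |u x| ≤ 1 / 2 := by
    intro x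
    have := (AddCircle.equivIco (1 : ℝ) (-1 / 2) (h x - h' x)).2
    rw [mem_Ico] at this
    rw [abs_le]
    constructor
    · have := this.1
      show -(1 / 2) ≤ (AddCircle.equivIco (1 : ℝ) (-1 / 2) (h x - h' x) : ℝ)
      linarith
    · have := this.2
      show (AddCircle.equivIco (1 : ℝ) (-1 / 2) (h x - h' x) : ℝ) ≤ 1 / 2
      linarith
  have hcont : Continuous u := by
    rw [continuous_iff_continuousAt]
    intro x
    have hne : h x - h' x ≠ ((-1 / 2 : ℝ) : UnitAddCircle) := by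
      intro he
      have h1 := hclose x
      rw [he] at h1
      have : ‖((-1 / 2 : ℝ) : UnitAddCircle)‖ = 1 / 2 := by
        rw [AddCircle.norm_eq]
        have : round ((1 : ℝ)⁻¹ * (-1 / 2)) = 0 := by
          rw [round_eq]; norm_num
        rw [this]
        norm_num [abs_div]
      rw [this] at h1
      norm_num at h1
    have h1 := AddCircle.continuousAt_equivIco (1 : ℝ) (-1 / 2) hne
    have h2 : ContinuousAt (fun x => h x - h' x) x := by fun_prop
    exact continuousAt_subtype_val.comp (ContinuousAt.comp (f := fun x => h x - h' x) h1 h2)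
  obtain ⟨H, H0, H1, H2⟩ := hD
  obtain ⟨K, K0, K1, K2⟩ := hD'
  refine ⟨u, hbd, fun x => ?_⟩
  rw [H2, K2]
  have hFc : Continuous fun t : I => F.toMap (t, x) := by fun_prop
  have := eq_zero_of_coe (fun t => H (t, x) - K (t, x) - (u (F.toMap (t, x)) - u x))
    ((by fun_prop : Continuous fun t : I => H (t, x) - K (t, x)).sub
      ((hcont.comp hFc).sub continuous_const)) (fun t => by
    have e1 := H1 t x
    have e2 := K1 t x
    rw [AddCircle.coe_sub, AddCircle.coe_sub, AddCircle.coe_sub, hcoe, hcoe, e1, e2]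
    abel) (by simp [H0, K0, F.zero]) 1
  show H (1, x) - K (1, x) = u (F.toMap (1, x)) - u x
  linarith

theorem birkhoff_close {D D' u : S → ℝ} (hu : ∀ x, |u x| ≤ 1 / 2)
    (h : ∀ x, D x - D' x = u (F.f x) - u x) (x : S) (n : ℕ) :
    |∑ i ∈ Finset.range n, D (F.f^[i] x) - ∑ i ∈ Finset.range n, D' (F.f^[i] x)| ≤ 1 := by
  have e : ∑ i ∈ Finset.range n, D (F.f^[i] x) - ∑ i ∈ Finset.range n, D' (F.f^[i] x) =
      u (F.f^[n] x) - u x := by
    rw [← Finset.sum_sub_distrib]
    have : ∀ i ∈ Finset.range n, D (F.f^[i] x) - D' (F.f^[i] x) =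
        u (F.f^[i + 1] x) - u (F.f^[i] x) := by
      intro i _
      rw [h, Function.iterate_succ_apply']
    rw [Finset.sum_congr rfl this, Finset.sum_range_sub (fun i => u (F.f^[i] x))]
    simp
  rw [e]
  have h1 := hu (F.f^[n] x)
  have h2 := hu x
  rw [abs_le] at h1 h2 ⊢
  constructor <;> linarith

/-- average of `D` -/
noncomputable def avg (D : S → ℝ) (x : S) (n : ℕ) : ℝ :=
  (∑ i ∈ Finset.range n, D (F.f^[i] x)) / n

theorem exists_subseq [CompactSpace S] [T2Space S] [SecondCountableTopology S] (x : ℕ → S) (n : ℕ → ℕ)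
    (hn : Tendsto n atTop atTop) :
    ∃ φ : ℕ → ℕ, StrictMono φ ∧ ∃ v : C(S, UnitAddCircle) → ℝ, ∀ h D, F.IsDisp h D →
      Tendsto (fun k => avg F D (x (φ k)) (n (φ k))) atTop (𝓝 (v h)) := by
  classical
  set ℋ : Set C(S, UnitAddCircle) := {h | ∃ D, F.IsDisp h D} with hℋ
  have : Nonempty ℋ := ⟨⟨0, _, zero_disp F⟩⟩
  obtain ⟨q, hq⟩ := TopologicalSpace.exists_dense_seq ℋ
  choose D hD using fun i => (q i).2
  have hD' := hD
  choose H H0 H1 H2 using hD
  set M : ℕ → ℝ := fun i => ‖H i‖ with hM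
  have hbd : ∀ i y, |D i y| ≤ M i := by
    intro i y
    rw [H2]
    exact (H i).norm_coe_le_norm (1, y)
  have havg : ∀ i y m, |avg F (D i) y m| ≤ M i := by
    intro i y m
    unfold avg
    rw [abs_div, Nat.abs_cast]
    rcases Nat.eq_zero_or_pos m with rfl | hm
    · simp only [Nat.cast_zero, div_zero]
      exact norm_nonneg _
    · rw [div_le_iff₀ (by exact_mod_cast hm)]
      calc |∑ i_1 ∈ Finset.range m, D i (F.f^[i_1] y)| ≤
          ∑ i_1 ∈ Finset.range m, |D i (F.f^[i_1] y)| := Finset.abs_sum_le_sum_abs _ _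
        _ ≤ ∑ i_1 ∈ Finset.range m, M i := Finset.sum_le_sum fun _ _ => hbd _ _
        _ = M i * m := by simp [mul_comm]
  have hcpt : IsCompact (Set.pi univ fun i : ℕ => Icc (-M i) (M i)) :=
    isCompact_univ_pi fun i => isCompact_Icc
  obtain ⟨a, -, φ, hφ, ha⟩ := hcpt.tendsto_subseq
    (x := fun k i => avg F (D i) (x k) (n k)) (fun k => by
      rw [mem_univ_pi]
      intro i
      exact abs_le.mp (havg i _ _))
  refine ⟨φ, hφ, ?_⟩
  rw [tendsto_pi_nhds] at ha
  have hidx : ∀ h ∈ ℋ, ∃ i, dist h (q i : C(S, UnitAddCircle)) < 1 / 4 := by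
    intro h hh
    obtain ⟨i, hi⟩ := hq.exists_dist_lt (⟨h, hh⟩ : ℋ) (show (0 : ℝ) < 1 / 4 by norm_num)
    exact ⟨i, hi⟩
  choose! idx hidx' using hidx
  refine ⟨fun h => a (idx h), ?_⟩
  intro h Dh hDh
  have hh : h ∈ ℋ := ⟨Dh, hDh⟩
  obtain ⟨u, hu1, hu2⟩ := disp_close F hDh (hD' (idx h)) (hidx' h hh)
  have hlim := ha (idx h)
  have hdiff : Tendsto (fun k => avg F Dh (x (φ k)) (n (φ k)) -
      avg F (D (idx h)) (x (φ k)) (n (φ k))) atTop (𝓝 0) := by
    have hz : Tendsto (fun k => (1 : ℝ) / (n (φ k) : ℝ)) atTop (𝓝 0) := by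
      apply Tendsto.div_atTop tendsto_const_nhds
      exact tendsto_natCast_atTop_atTop.comp (hn.comp hφ.tendsto_atTop)
    refine squeeze_zero_norm (fun k => ?_) hz
    unfold avg
    rw [← sub_div, norm_div, Real.norm_eq_abs, Real.norm_natCast]
    exact div_le_div_of_nonneg_right (birkhoff_close F hu1 hu2 _ _) (Nat.cast_nonneg _)
  have := hlim.add hdiff
  rw [add_zero] at this
  refine this.congr fun k => ?_
  simp only [Function.comp]
  ring

end Pool.Agent.helper18.Rot
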