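import Mathlib
import Pool.Agent.helper18.Rot.Subseq

/-!
# Final assembly: from the symbolic and the geometric part to the theorem
-/

open Topology Filter Set
open scoped unitInterval

namespace Pool.Agent.helper18.Rot

variable {S : Type} [TopologicalSpace S]

theorem sum_Cnt (P : Par) (x : ℝ) (n : ℕ) (s : Ga) : ∑ g, P.Cnt x n (g - s) = n := by
  refine (Equiv.sum_comp (Equiv.subRight s) (fun g => P.Cnt x n g)).trans ?_
  unfold Par.Cnt
  have := Finset.card_eq_sum_card_fiberwise (s := Finset.range n) (t := (Finset.univ : Finset Ga))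
    (f := fun i => P.Lab x (i + 1)) (fun _ _ => Finset.mem_coe.mpr (Finset.mem_univ _))
  rw [Finset.card_range] at this
  exact this.symm

/-- the parameter `ξ` of a direction of a rotation vector lies in `{1} ∪ {1 + 1/j}` -/
theorem upper_dir (F : IdIsotopy S) (h : Ga → C(S, UnitAddCircle)) (D : Ga → S → ℝ)
    (hD : ∀ g, F.IsDisp (h g) (D g)) (P : Par)
    (hU : ∀ (p : S) (n : ℕ), ∃ x : ℝ, 0 ≤ x ∧ x < 1 ∧ ∃ (s : Ga) (L : ℕ), ∀ g,
        |∑ i ∈ Finset.range n, D g (F.f^[i] p) - P.Cnt x L (g - s)| ≤ 2)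
    (p : ℝ → Ga → ℝ) (hp1 : ∀ ξ, ∑ g, p ξ g = 1)
    (hUB : ∀ (x : ℕ → ℝ) (s : ℕ → Ga) (L : ℕ → ℕ) (ξ : ℝ), (∀ i, 0 ≤ x i ∧ x i < 1) →
      Tendsto L atTop atTop → 0 < ξ → ξ < 3 →
      (∀ g, Tendsto (fun i => (P.Cnt (x i) (L i) (g - s i) : ℝ) / L i) atTop (𝓝 (p ξ g))) →
      ξ = 1 ∨ ∃ j : ℕ, 1 ≤ j ∧ ξ = 1 + 1 / j)
    {v : C(S, UnitAddCircle) → ℝ} (hv : v ∈ F.rotSet) {μ ξ : ℝ} (hμ : 0 < μ) (hξ0 : 0 < ξ)
    (hξ3 : ξ < 3) (hvp : ∀ g, v (h g) = μ * p ξ g) :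
    ξ = 1 ∨ ∃ j : ℕ, 1 ≤ j ∧ ξ = 1 + 1 / j := by
  obtain ⟨y, n, hn, hlim⟩ := hv
  choose X hX0 hX1 s L hL using fun k => hU (y k) (n k)
  have hnR : Tendsto (fun k => (n k : ℝ)) atTop atTop := tendsto_natCast_atTop_atTop.comp hn
  -- counts divided by n
  have hc : ∀ g, Tendsto (fun k => (P.Cnt (X k) (L k) (g - s k) : ℝ) / n k) atTop
      (𝓝 (μ * p ξ g)) := by
    intro g
    have h1 := hlim (h g) (D g) (hD g)
    rw [hvp g] at h1
    have h2 : Tendsto (fun k => ((P.Cnt (X k) (L k) (g - s k) : ℝ) -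
        ∑ i ∈ Finset.range (n k), D g (F.f^[i] (y k))) / n k) atTop (𝓝 0) := by
      have hz : Tendsto (fun k => (2 : ℝ) / (n k : ℝ)) atTop (𝓝 0) :=
        Tendsto.div_atTop tendsto_const_nhds hnR
      refine squeeze_zero_norm (fun k => ?_) hz
      rw [norm_div, Real.norm_eq_abs, Real.norm_natCast, abs_sub_comm]
      exact div_le_div_of_nonneg_right (hL k g) (Nat.cast_nonneg _)
    have h3 := h1.add h2
    rw [add_zero] at h3
    refine h3.congr fun k => ?_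
    rw [← add_div]
    congr 1
    ring
  -- L / n → μ
  have hLn : Tendsto (fun k => (L k : ℝ) / n k) atTop (𝓝 μ) := by
    have h1 := tendsto_finsetSum Finset.univ fun g (_ : g ∈ Finset.univ) => hc g
    rw [← Finset.mul_sum, hp1, mul_one] at h1
    refine h1.congr fun k => ?_
    rw [← Finset.sum_div]
    congr 1
    exact_mod_cast sum_Cnt P (X k) (L k) (s k)
  have hLinf : Tendsto (fun k => (L k : ℝ)) atTop atTop := by
    have h1 := hLn.pos_mul_atTop hμ hnR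
    refine h1.congr' ?_
    filter_upwards [hnR.eventually_gt_atTop 0] with k hk
    field_simp
  have hLN : Tendsto L atTop atTop := tendsto_natCast_atTop_iff.mp hLinf
  refine hUB X s L ξ (fun i => ⟨hX0 i, hX1 i⟩) hLN hξ0 hξ3 fun g => ?_
  have h1 := (hc g).div hLn hμ.ne'
  rw [mul_div_cancel_left₀ _ hμ.ne'] at h1
  refine h1.congr' ?_
  filter_upwards [hnR.eventually_gt_atTop 0] with k hk
  simp only [Pi.div_apply]
  rw [div_div_div_cancel_right₀ hk.ne']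

/-- for every `j` there is a rotation vector in the direction `1 + 1/j` -/
theorem lower_dir [CompactSpace S] [T2Space S] [SecondCountableTopology S] (F : IdIsotopy S)
    (h : Ga → C(S, UnitAddCircle)) (D : Ga → S → ℝ)
    (hD : ∀ g, F.IsDisp (h g) (D g)) (P : Par)
    (hLo : ∃ C : ℝ, ∀ x : ℝ, 0 ≤ x → x < 1 → ∀ (s : Ga) (L : ℕ),
        (∀ i < L, ∀ j, P.dlo x i j ≠ 0 ∧ P.dhi x i j ≠ 0) →
        ∃ (p : S) (n : ℕ), L ≤ n ∧ (n : ℝ) ≤ C * (1 + L + P.cost x L) ∧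
          ∀ g, |∑ i ∈ Finset.range n, D g (F.f^[i] p) - P.Cnt x L (g - s)| ≤ 2)
    {q : Ga → ℝ}
    (hLB : ∃ (C : ℝ) (x : ℕ → ℝ) (L : ℕ → ℕ), (∀ i, 0 ≤ x i ∧ x i < 1) ∧
      Tendsto L atTop atTop ∧ (∀ i, ∀ m < L i, ∀ q, P.dlo (x i) m q ≠ 0 ∧ P.dhi (x i) m q ≠ 0) ∧
      (∀ i, P.cost (x i) (L i) ≤ C * L i) ∧
      ∀ g, Tendsto (fun i => (P.Cnt (x i) (L i) g : ℝ) / L i) atTop (𝓝 (q g))) :
    ∃ v ∈ F.rotSet, ∃ lam : ℝ, 0 < lam ∧ ∀ g, v (h g) = lam * q g := by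
  obtain ⟨C', hC'⟩ := hLo
  obtain ⟨C, x, L, hx, hL, hne, hcost, hlim⟩ := hLB
  choose y n hn1 hn2 hn3 using fun i => hC' (x i) (hx i).1 (hx i).2 0 (L i) (hne i)
  have hn : Tendsto n atTop atTop := tendsto_atTop_mono hn1 hL
  have hLR : Tendsto (fun k => (L k : ℝ)) atTop atTop := tendsto_natCast_atTop_atTop.comp hL
  have hnR : Tendsto (fun k => (n k : ℝ)) atTop atTop := tendsto_natCast_atTop_atTop.comp hn
  set K : ℝ := |C'| * (2 + |C|) + 1 with hK
  have hK0 : 0 < K := by positivity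
  have hratio : ∀ᶠ k in atTop, (L k : ℝ) / n k ∈ Icc (1 / K) 1 := by
    filter_upwards [hL.eventually_ge_atTop 1] with k hk
    have hL1 : (1 : ℝ) ≤ L k := by exact_mod_cast hk
    have hLn : (L k : ℝ) ≤ n k := by exact_mod_cast hn1 k
    have hn0 : (0 : ℝ) < n k := by linarith
    refine ⟨?_, ?_⟩
    · rw [div_le_div_iff₀ hK0 hn0, one_mul]
      have h1 := hcost k
      have h2 : C * L k ≤ |C| * L k := mul_le_mul_of_nonneg_right (le_abs_self C) (by linarith)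
      have hcost0 : 1 + L k + P.cost (x k) (L k) ≤ (2 + |C|) * L k := by nlinarith
      have h3 := hn2 k
      rcases le_or_gt 0 (1 + L k + P.cost (x k) (L k)) with h4 | h4
      · have h5 : C' * (1 + L k + P.cost (x k) (L k)) ≤ |C'| * ((2 + |C|) * L k) :=
          (mul_le_mul_of_nonneg_right (le_abs_self C') h4).trans
            (mul_le_mul_of_nonneg_left hcost0 (abs_nonneg _))
        rw [hK]
        nlinarith
      · -- cost nonneg would exclude this; use it anyway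
        exfalso
        have hc0 : 0 ≤ P.cost (x k) (L k) := by
          unfold Par.cost
          apply Finset.sum_nonneg
          intro i _
          apply Finset.sum_nonneg
          intro j _
          have e1 : P.dlo (x k) i j ≤ 1 := by
            unfold Par.dlo
            refine (AddCircle.norm_le_half_period (1 : ℝ) one_ne_zero).trans ?_
            norm_num
          have e2 : P.dhi (x k) i j ≤ 1 := by
            unfold Par.dhi
            refine (AddCircle.norm_le_half_period (1 : ℝ) one_ne_zero).trans ?_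
            norm_num
          have e3 : Real.log (P.dlo (x k) i j) ≤ 0 :=
            Real.log_nonpos (norm_nonneg _) e1
          have e4 : Real.log (P.dhi (x k) i j) ≤ 0 :=
            Real.log_nonpos (norm_nonneg _) e2
          linarith
        linarith
    · rw [div_le_one hn0]
      exact hLn
  obtain ⟨N, hN⟩ := eventually_atTop.mp hratio
  obtain ⟨lam, hlam, φ, hφ, hlamlim⟩ := (isCompact_Icc (a := 1 / K) (b := (1 : ℝ))).tendsto_subseq
    (x := fun k => (L (k + N) : ℝ) / n (k + N)) (fun k => hN _ (by omega))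
  have hlam0 : 0 < lam := lt_of_lt_of_le (by positivity) hlam.1
  have hφN : Tendsto (fun k => φ k + N) atTop atTop :=
    tendsto_atTop_mono (fun k => Nat.le_add_right _ N) hφ.tendsto_atTop
  obtain ⟨ψ, hψ, v, hv⟩ := exists_subseq F (fun k => y (φ k + N)) (fun k => n (φ k + N))
    (hn.comp hφN)
  have hψN : Tendsto (fun k => φ (ψ k) + N) atTop atTop := hφN.comp hψ.tendsto_atTop
  refine ⟨v, ⟨fun k => y (φ (ψ k) + N), fun k => n (φ (ψ k) + N), hn.comp hψN, hv⟩, lam, hlam0, ?_⟩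
  intro g
  have h1 := hv (h g) (D g) (hD g)
  have h2 : Tendsto (fun k => avg F (D g) (y (φ (ψ k) + N)) (n (φ (ψ k) + N))) atTop
      (𝓝 (lam * q g)) := by
    have h3 : Tendsto (fun k => (L (φ (ψ k) + N) : ℝ) / n (φ (ψ k) + N)) atTop (𝓝 lam) :=
      hlamlim.comp hψ.tendsto_atTop
    have h4 := h3.mul ((hlim g).comp hψN)
    have h5 : Tendsto (fun k => (2 : ℝ) / (n (φ (ψ k) + N) : ℝ)) atTop (𝓝 0) :=
      Tendsto.div_atTop tendsto_const_nhds (hnR.comp hψN)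
    have h6 : Tendsto (fun k => avg F (D g) (y (φ (ψ k) + N)) (n (φ (ψ k) + N)) -
        (P.Cnt (x (φ (ψ k) + N)) (L (φ (ψ k) + N)) g : ℝ) / n (φ (ψ k) + N)) atTop (𝓝 0) := by
      refine squeeze_zero_norm (fun k => ?_) h5
      unfold avg
      rw [← sub_div, norm_div, Real.norm_eq_abs, Real.norm_natCast]
      have := hn3 (φ (ψ k) + N) g
      rw [sub_zero] at this
      exact div_le_div_of_nonneg_right this (Nat.cast_nonneg _)
    have h7 := h6.add h4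
    rw [zero_add] at h7
    refine h7.congr' ?_
    filter_upwards [(hLR.comp hψN).eventually_gt_atTop 0] with k hk
    simp only [Function.comp] at hk ⊢
    have : (L (φ (ψ k) + N) : ℝ) / n (φ (ψ k) + N) *
        ((P.Cnt (x (φ (ψ k) + N)) (L (φ (ψ k) + N)) g : ℝ) / L (φ (ψ k) + N)) =
        (P.Cnt (x (φ (ψ k) + N)) (L (φ (ψ k) + N)) g : ℝ) / n (φ (ψ k) + N) := by
      field_simp
    rw [this]
    ring
  exact tendsto_nhds_unique h1 h2

/-- a point strictly between `1 + 1/j` and `1 + 1/i` that is not of the form `1 + 1/m` -/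
theorem exists_gap {i j : ℕ} (hi : 1 ≤ i) (hij : i < j) :
    ∃ ξ : ℝ, 1 + 1 / (j : ℝ) < ξ ∧ ξ < 1 + 1 / (i : ℝ) ∧ ξ ≠ 1 ∧
      ∀ m : ℕ, 1 ≤ m → ξ ≠ 1 + 1 / m := by
  have hi' : (1 : ℝ) ≤ i := by exact_mod_cast hi
  have hj' : (i : ℝ) + 1 ≤ j := by exact_mod_cast hij
  refine ⟨1 + 1 / ((j : ℝ) - 1 / 2), ?_, ?_, ?_, ?_⟩
  · have : 1 / (j : ℝ) < 1 / ((j : ℝ) - 1 / 2) :=
      one_div_lt_one_div_of_lt (by linarith) (by linarith)
    linarith
  · have : 1 / ((j : ℝ) - 1 / 2) < 1 / (i : ℝ) :=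
      one_div_lt_one_div_of_lt (by linarith) (by linarith)
    linarith
  · have : 0 < 1 / ((j : ℝ) - 1 / 2) := by
      apply one_div_pos.mpr; linarith
    intro h
    linarith
  · intro m hm h
    have hm' : (1 : ℝ) ≤ m := by exact_mod_cast hm
    have h1 : 1 / ((j : ℝ) - 1 / 2) = 1 / (m : ℝ) := by linarith
    have h2 : (j : ℝ) - 1 / 2 = m := by
      have := congrArg (fun t => 1 / t) h1
      simpa using this
    have h3 : (2 * j : ℝ) = 2 * m + 1 := by linarith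
    have h4 : 2 * j = 2 * m + 1 := by exact_mod_cast h3
    omega

theorem combine {a b li lj x xi xj c d : ℝ} (hab : a + b ≠ 0)
    (e : b * li * xi + a * lj * xj = (b * li + a * lj) * x) :
    b / (a + b) * (li * (c + xi * d)) + a / (a + b) * (lj * (c + xj * d)) =
      (b / (a + b) * li + a / (a + b) * lj) * (c + x * d) := by
  field_simp
  linear_combination d * e

theorem core [CompactSpace S] [T2Space S] [SecondCountableTopology S] (F : IdIsotopy S)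
    (h : Ga → C(S, UnitAddCircle)) (D : Ga → S → ℝ)
    (hD : ∀ g, F.IsDisp (h g) (D g)) (P : Par)
    (hU : ∀ (p : S) (n : ℕ), ∃ x : ℝ, 0 ≤ x ∧ x < 1 ∧ ∃ (s : Ga) (L : ℕ), ∀ g,
        |∑ i ∈ Finset.range n, D g (F.f^[i] p) - P.Cnt x L (g - s)| ≤ 2)
    (hLo : ∃ C : ℝ, ∀ x : ℝ, 0 ≤ x → x < 1 → ∀ (s : Ga) (L : ℕ),
        (∀ i < L, ∀ j, P.dlo x i j ≠ 0 ∧ P.dhi x i j ≠ 0) →
        ∃ (p : S) (n : ℕ), L ≤ n ∧ (n : ℝ) ≤ C * (1 + L + P.cost x L) ∧
          ∀ g, |∑ i ∈ Finset.range n, D g (F.f^[i] p) - P.Cnt x L (g - s)| ≤ 2)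
    (p : ℝ → Ga → ℝ) (hpaff : ∃ p₀ p₁ : Ga → ℝ, ∀ ξ g, p ξ g = p₀ g + ξ * p₁ g)
    (hp1 : ∀ ξ, ∑ g, p ξ g = 1)
    (hUB : ∀ (x : ℕ → ℝ) (s : ℕ → Ga) (L : ℕ → ℕ) (ξ : ℝ), (∀ i, 0 ≤ x i ∧ x i < 1) →
      Tendsto L atTop atTop → 0 < ξ → ξ < 3 →
      (∀ g, Tendsto (fun i => (P.Cnt (x i) (L i) (g - s i) : ℝ) / L i) atTop (𝓝 (p ξ g))) →
      ξ = 1 ∨ ∃ j : ℕ, 1 ≤ j ∧ ξ = 1 + 1 / j)
    (hLB : ∀ j : ℕ, 1 ≤ j → ∃ (C : ℝ) (x : ℕ → ℝ) (L : ℕ → ℕ), (∀ i, 0 ≤ x i ∧ x i < 1) ∧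
      Tendsto L atTop atTop ∧ (∀ i, ∀ m < L i, ∀ q, P.dlo (x i) m q ≠ 0 ∧ P.dhi (x i) m q ≠ 0) ∧
      (∀ i, P.cost (x i) (L i) ≤ C * L i) ∧
      ∀ g, Tendsto (fun i => (P.Cnt (x i) (L i) g : ℝ) / L i) atTop (𝓝 (p (1 + 1 / j) g))) :
    ¬ ∃ 𝒞 : Set (Set (C(S, UnitAddCircle) → ℝ)), 𝒞.Finite ∧ (∀ A ∈ 𝒞, Convex ℝ A) ∧
      F.rotSet = ⋃₀ 𝒞 := by
  rintro ⟨𝒞, hfin, hconv, hunion⟩
  choose v hv lam hlam hvp using fun j : ℕ =>
    lower_dir F h D hD P hLo (hLB (j + 1) (by omega))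
  have hmem : ∀ j, ∃ A ∈ 𝒞, v j ∈ A := by
    intro j
    have := hv j
    rw [hunion] at this
    exact this
  choose A hA hvA using hmem
  have : Finite 𝒞 := hfin
  obtain ⟨i, j, hne, hij⟩ := Finite.exists_ne_map_eq_of_infinite fun j => (⟨A j, hA j⟩ : 𝒞)
  wlog hlt : i < j generalizing i j
  · exact this j i hne.symm hij.symm (by omega)
  have hAij : A i = A j := congrArg Subtype.val hij
  obtain ⟨ξ, hξj, hξi, hξ1, hξm⟩ := exists_gap (i := i + 1) (j := j + 1) (by omega) (by omega)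
  set ξi : ℝ := 1 + 1 / ((i + 1 : ℕ) : ℝ) with hξi'
  set ξj : ℝ := 1 + 1 / ((j + 1 : ℕ) : ℝ) with hξj'
  set a := lam i * (ξi - ξ) with ha
  set b := lam j * (ξ - ξj) with hb
  have ha0 : 0 < a := mul_pos (hlam i) (by linarith)
  have hb0 : 0 < b := mul_pos (hlam j) (by linarith)
  have hw : (b / (a + b)) • v i + (a / (a + b)) • v j ∈ F.rotSet := by
    rw [hunion]
    refine ⟨A i, hA i, ?_⟩
    apply hconv (A i) (hA i) (hvA i) (by rw [hAij]; exact hvA j)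
    · positivity
    · positivity
    · field_simp
      ring
  obtain ⟨p₀, p₁, hpp⟩ := hpaff
  have key := upper_dir F h D hD P hU p hp1 hUB hw (μ := b / (a + b) * lam i + a / (a + b) * lam j)
    (ξ := ξ) (by
      have h1 := hlam i
      have h2 := hlam j
      positivity) ?_ ?_ ?_
  · rcases key with h1 | ⟨m, hm, h1⟩
    · exact hξ1 h1
    · exact hξm m hm h1
  · have : 0 < 1 / ((j + 1 : ℕ) : ℝ) := by positivity
    linarith
  · have : 1 / ((i + 1 : ℕ) : ℝ) ≤ 1 := by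
      rw [div_le_one (by positivity)]
      push_cast
      linarith [Nat.cast_nonneg (α := ℝ) i]
    linarith
  · intro g
    simp only [Pi.add_apply, Pi.smul_apply, smul_eq_mul]
    rw [hvp i, hvp j, hpp, hpp, hpp]
    have hab : a + b ≠ 0 := by positivity
    have e : b * lam i * (ξi - ξ) = a * lam j * (ξ - ξj) := by
      rw [ha, hb]; ring
    have e2 : b * lam i * ξi + a * lam j * ξj = (b * lam i + a * lam j) * ξ := by linarith
    exact combine hab e2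

end Pool.Agent.helper18.Rot
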