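import Mathlib
import Pool.Agent.helper31.Rot.Top
import Pool.Agent.helper9.Rot.Iso
import Pool.Agent.helper17.Rot.Chart
import Pool.Agent.helper97.Rot.Conn
import Pool.Agent.helper97.Rot.Betti
import Pool.Agent.helper8.Rot.Birk
import Pool.Agent.helper8.Rot.Cls
import Pool.Agent.helper67.Rot.Cost

/-!
# Summary of the geometric part
-/

open Topology Filter Set
open scoped unitInterval Manifold ContDiff

namespace Pool.Agent.helper18.Rot

theorem surface (P : Par) : ∃ (S : Type) (_ : TopologicalSpace S) (_ : ChartedSpace ℂ S),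
    IsManifold 𝓘(ℂ) ω S ∧ CompactSpace S ∧ T2Space S ∧ SecondCountableTopology S ∧
    ConnectedSpace S ∧ BettiGe S 4 ∧
    ∃ (F : IdIsotopy S) (h : Ga → C(S, UnitAddCircle)) (D : Ga → S → ℝ),
      (∀ g, F.IsDisp (h g) (D g)) ∧
      (∀ (p : S) (n : ℕ), ∃ x : ℝ, 0 ≤ x ∧ x < 1 ∧ ∃ (s : Ga) (L : ℕ), ∀ g,
        |∑ i ∈ Finset.range n, D g (F.f^[i] p) - P.Cnt x L (g - s)| ≤ 2) ∧
      (∃ C : ℝ, ∀ x : ℝ, 0 ≤ x → x < 1 → ∀ (s : Ga) (L : ℕ),
        (∀ i < L, ∀ j, P.dlo x i j ≠ 0 ∧ P.dhi x i j ≠ 0) →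
        ∃ (p : S) (n : ℕ), L ≤ n ∧ (n : ℝ) ≤ C * (1 + L + P.cost x L) ∧
          ∀ g, |∑ i ∈ Finset.range n, D g (F.f^[i] p) - P.Cnt x L (g - s)| ≤ 2) := by
  obtain ⟨cs, hm⟩ := Pool.Agent.helper17.Rot.surf_manifold P
  obtain ⟨F, hF⟩ := Pool.Agent.helper9.Rot.exists_isotopy P
  obtain ⟨h, -, hD⟩ := Pool.Agent.helper8.Rot.exists_cls P F hF
  exact ⟨P.Surf, inferInstance, cs, hm, Pool.Agent.helper31.Rot.surf_compact P,
    Pool.Agent.helper31.Rot.surf_t2 P, Pool.Agent.helper31.Rot.surf_secondCountable P,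
    Pool.Agent.helper97.Rot.surf_connected P, Pool.Agent.helper97.Rot.surf_betti P, F, h,
    Pool.Agent.helper8.Rot.Dg P, hD, Pool.Agent.helper8.Rot.upper P F hF,
    Pool.Agent.helper67.Rot.lower P F hF⟩

end Pool.Agent.helper18.Rot
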