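import Mathlib
import Pool.Agent.helper18.Rot.Defs

/-!
# Symbolic part: parameters, types, substitution
-/

open Topology Filter Set

namespace Pool.Agent.helper18.Rot.Sym

/-- index visiting every positive integer infinitely often -/
def jj (k : ℕ) : ℕ := (Nat.unpair k).1 + 1
def mA (k : ℕ) : ℕ := (jj k + 1) * (k + 1)
def ml (k : ℕ) : ℕ := 3 * jj k * (k + 1)
def mB (k : ℕ) : ℕ := (2 * jj k - 1) * (k + 1)
def HH (k : ℕ) : ℕ := 3 * mA k + ml k + 3 * mB k
def NN (k : ℕ) : ℕ := 1000 * (k + 2) ^ 8

/-- Rotation numbers and slit lengths at all scales. -/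
structure Data where
  al : ℕ → ℝ
  bA : ℕ → ℝ
  ga : ℕ → ℝ
  bB : ℕ → ℝ
  al_pos : ∀ k, 0 < al k
  al_lt : ∀ k, al k < 1 / 1000
  al_rec : ∀ k, al k * (NN k - al (k + 1)) = 1
  bA_pos : ∀ k, 0 < bA k
  ga_pos : ∀ k, 0 < ga k
  bB_pos : ∀ k, 0 < bB k
  bA_rec : ∀ k, bA k = (3 * mA k + bA (k + 1)) * al k
  ga_rec : ∀ k, ga k = (ml k + ga (k + 1)) * al k
  bB_rec : ∀ k, bB k = (3 * mB k + bB (k + 1)) * al k
  small : ∀ k, bA k + ga k + bB k < 1 / 100

/-- The five letters. `0`: slit `0`; `1`: gap; `2`: slit `1`; `3`: rest; `4`: last step. -/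
abbrev Letter : Type := Fin 5

/-- sheet increments -/
def ph (t : Letter) : Ga := if t = 0 then ![1, 0] else if t = 2 then ![0, 1] else 0

def eA (t : Letter) : ℕ := if t = 0 then 1 else 0
/-- first index of the letters `2` -/
def gB (k : ℕ) (t : Letter) : ℕ := 3 * mA k + ml k + if t = 0 ∨ t = 1 then 1 else 0
/-- first index after the letters `2` -/
def gR (k : ℕ) (t : Letter) : ℕ :=
  3 * mA k + ml k + 3 * mB k + if t = 0 ∨ t = 1 ∨ t = 2 then 1 else 0
/-- length of the substituted word -/
def nt (k : ℕ) (t : Letter) : ℕ := if t = 4 then NN k - 1 else NN k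
/-- the substitution: letter number `i` of the word at level `k` which replaces the letter `t` of
level `k + 1` -/
def sub (k : ℕ) (t : Letter) (i : ℕ) : Letter :=
  if i < 3 * mA k + eA t then 0 else if i < gB k t then 1 else if i < gR k t then 2
  else if i + 1 < nt k t then 3 else 4

/-- duration of a level-`k` step -/
def len : ℕ → Letter → ℕ
  | 0, _ => 1
  | k + 1, t => ∑ i ∈ Finset.range (nt k t), len k (sub k t i)

/-- time of the beginning of the level-`k` step number `i` in a level-`(k+1)` step -/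
def tm (k : ℕ) (t : Letter) (i : ℕ) : ℕ := ∑ r ∈ Finset.range i, len k (sub k t r)

/-- sheet before the level-`k` step number `i` in a level-`(k+1)` step -/
def Lb (k : ℕ) (t : Letter) (i : ℕ) : Ga := ∑ r ∈ Finset.range i, ph (sub k t r)

/-- `HH k * len k 3` at level `k + 1`: duration of the event zone -/
def EE : ℕ → ℕ
  | 0 => 1
  | k + 1 => HH k * len k 3

namespace Data
variable (E : Data)

noncomputable def D (k : ℕ) : ℝ := E.bA k + E.ga k + E.bB k

/-- width of the level-`k` interval -/
noncomputable def w (k : ℕ) : ℝ := ∏ j ∈ Finset.range k, E.al j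

/-- type of a point of level `k` -/
noncomputable def typ (k : ℕ) (y : ℝ) : Letter :=
  if y < E.bA k then 0 else if y < E.bA k + E.ga k then 1 else if y < E.D k then 2
  else if y < 1 - E.al k then 3 else 4

theorem al0_pos : 0 < E.al 0 := E.al_pos 0

/-- The parameters of the surface. -/
noncomputable def par : Par where
  al := E.al 0
  lo := ![0, E.bA 0 + E.ga 0]
  hi := ![E.bA 0, E.D 0]
  al_pos := E.al_pos 0
  al_lt := by have := E.al_lt 0; linarith
  lo_nonneg := le_rfl
  lo_hi := by
    intro i
    have h1 := E.bA_pos 0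
    have h2 := E.bB_pos 0
    fin_cases i
    · simpa using h1
    · simp [D]; linarith
  hi_lo := by
    have h1 := E.ga_pos 0
    simpa using h1
  hi_lt := by
    have := E.small 0
    simp [D]; linarith

end Data

/-- number of `i ∈ [p,q)` such that the sheet after crossing `i` is `g` -/
noncomputable def cw (P : Par) (x : ℝ) (p q : ℕ) (g : Ga) : ℕ :=
  ((Finset.Ico p q).filter fun i => P.Lab x (i + 1) = g).card

end Pool.Agent.helper18.Rot.Sym
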