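import Mathlib
import Pool.Agent.helper18.Rot.SymDefs

/-!
# Symbolic part: discrepancy and ideal directions
-/

open Topology Filter Set

namespace Pool.Agent.helper18.Rot.Sym

/-- `ℓ¹`-discrepancy of the window `[p,q)` from the distribution `θ` shifted by `s` -/
noncomputable def dev (P : Par) (θ : Ga → ℝ) (x : ℝ) (p q : ℕ) (s : Ga) : ℝ :=
  ∑ g, |(cw P x p q g : ℝ) - ((q : ℝ) - p) * θ (g - s)|

/-- ideal direction with `T_A : T_0 : T_B = ξ : 1 : 3 - ξ` -/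
noncomputable def tauv (ξ : ℝ) (g : Ga) : ℝ :=
  if g = 0 then 1 / 2 else if g = ![1, 0] ∨ g = ![2, 0] then ξ / 12
  else if g = ![0, 1] ∨ g = ![0, 2] then (3 - ξ) / 12 else 0

noncomputable def Pxi (θ : Ga → ℝ) (ξ : ℝ) (g : Ga) : ℝ := ∑ g', tauv ξ g' * θ (g - g')

end Pool.Agent.helper18.Rot.Sym
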