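import Mathlib
import Pool.Agent.helper18.Rot.SymDefs2
import Pool.Agent.helper54.Rot.Comb
import Pool.Agent.helper61.Rot.Block
import Pool.Agent.helper97.Rot.UbComb

/-!
# mod:coarse — coarse description of windows
-/

open Topology Filter Set

namespace Pool.Agent.helper18.Rot

open Pool.Agent.helper18.Rot.Sym
open Pool.Agent.helper54.Rot (gR_lt Lb_eq Lb_nt len_of_ne len_succ_three len_succ_four len_pos
  len_four_le tm_eq)
open Pool.Agent.helper61.Rot (typ_tower block block_mid cover Cnt_eq_cw cw_shift cw_add)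
open Pool.Agent.helper97.Rot (ubcomb)

/-! ### Cutting a window into steps -/

/-- cut points of the window `[P,Q)` -/
def cut (k : ℕ) (t : Letter) (P Q i : ℕ) : ℕ := min Q (max P (tm k t i))

/-- duration of the step `i` in the window `[P,Q)` -/
def dur (k : ℕ) (t : Letter) (P Q i : ℕ) : ℕ := cut k t P Q (i + 1) - cut k t P Q i

theorem tm_mono (k : ℕ) (t : Letter) : Monotone (tm k t) := by
  apply monotone_nat_of_le_succ
  intro i
  unfold tm
  rw [Finset.sum_range_succ]
  exact Nat.le_add_right _ _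

theorem tm_succ (k : ℕ) (t : Letter) (i : ℕ) : tm k t (i + 1) = tm k t i + len k (sub k t i) := by
  unfold tm
  rw [Finset.sum_range_succ]

theorem tm_nt (k : ℕ) (t : Letter) : tm k t (nt k t) = len (k + 1) t := rfl

attribute [local irreducible] len NN

theorem cut_mono (k : ℕ) (t : Letter) (P Q : ℕ) : Monotone (cut k t P Q) := by
  intro i j hij
  have := tm_mono k t hij
  unfold cut
  omega

theorem cut_zero (k : ℕ) (t : Letter) {P Q : ℕ} (h : P ≤ Q) : cut k t P Q 0 = P := by
  unfold cut tm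
  simp
  exact h

theorem cut_nt (k : ℕ) (t : Letter) {P Q : ℕ} (hQ : Q ≤ len (k + 1) t) :
    cut k t P Q (nt k t) = Q := by
  unfold cut
  rw [tm_nt]
  omega

theorem sum_dur (k : ℕ) (t : Letter) {P Q : ℕ} (h : P ≤ Q) (n : ℕ) :
    ∑ i ∈ Finset.range n, dur k t P Q i = cut k t P Q n - P := by
  induction n with
  | zero => simp [cut_zero k t h]
  | succ n ih =>
    rw [Finset.sum_range_succ, ih]
    have h1 := cut_mono k t P Q (Nat.zero_le n)
    have h2 := cut_mono k t P Q (Nat.le_succ n)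
    rw [cut_zero k t h] at h1
    unfold dur
    simp only [Nat.succ_eq_add_one] at h2
    omega

theorem sum_dur_nt (k : ℕ) (t : Letter) {P Q : ℕ} (h : P ≤ Q) (hQ : Q ≤ len (k + 1) t) :
    ∑ i ∈ Finset.range (nt k t), dur k t P Q i = Q - P := by
  rw [sum_dur k t h, cut_nt k t hQ]

theorem dur_le (k : ℕ) (t : Letter) (P Q i : ℕ) : dur k t P Q i ≤ len k (sub k t i) := by
  have := tm_succ k t i
  unfold dur cut
  omega

theorem len_le_three (k : ℕ) (t : Letter) : len k t ≤ len k 3 := by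
  by_cases ht : t = 4
  · subst ht; exact len_four_le k
  · exact (len_of_ne k ht).le

theorem len_ge_four (k : ℕ) (t : Letter) : len k 4 ≤ len k t := by
  by_cases ht : t = 4
  · subst ht; exact le_rfl
  · rw [len_of_ne k ht]; exact len_four_le k

theorem sub_ne_four (k : ℕ) (t : Letter) {i : ℕ} (hi : i + 1 < nt k t) : sub k t i ≠ 4 := by
  unfold sub
  split_ifs <;> decide

/-- first and last step of a nonempty window -/
theorem exists_first_last (k : ℕ) (t : Letter) {P Q : ℕ} (h : P < Q) (hQ : Q ≤ len (k + 1) t) :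
    ∃ i₁ i₂, i₁ ≤ i₂ ∧ i₂ < nt k t ∧ (∀ i, i < i₁ ∨ i₂ < i → dur k t P Q i = 0) ∧
      (∀ i, i₁ < i → i < i₂ → dur k t P Q i = len k 3) ∧
      (tm k t i₁ ≤ P ∧ P < tm k t (i₁ + 1)) ∧ (tm k t i₂ < Q ∧ Q ≤ tm k t (i₂ + 1)) := by
  have hex1 : ∃ i, P < tm k t (i + 1) := by
    refine ⟨nt k t, ?_⟩
    have := tm_mono k t (Nat.le_succ (nt k t))
    rw [tm_nt] at this
    simp only [Nat.succ_eq_add_one] at this
    omega
  have hex2 : ∃ i, Q ≤ tm k t (i + 1) := by
    refine ⟨nt k t, ?_⟩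
    have := tm_mono k t (Nat.le_succ (nt k t))
    rw [tm_nt] at this
    simp only [Nat.succ_eq_add_one] at this
    omega
  classical
  set i₁ := Nat.find hex1 with hi1
  set i₂ := Nat.find hex2 with hi2
  have h1 : P < tm k t (i₁ + 1) := Nat.find_spec hex1
  have h2 : Q ≤ tm k t (i₂ + 1) := Nat.find_spec hex2
  have h1' : tm k t i₁ ≤ P := by
    rcases Nat.eq_zero_or_pos i₁ with h0 | h0
    · rw [h0]; simp [tm]
    · obtain ⟨m, hm⟩ := Nat.exists_eq_succ_of_ne_zero h0.ne'
      have := Nat.find_min hex1 (m := m) (by omega)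
      rw [hm]
      simpa using this
  have h2' : tm k t i₂ < Q := by
    rcases Nat.eq_zero_or_pos i₂ with h0 | h0
    · rw [h0]; simp [tm]; omega
    · obtain ⟨m, hm⟩ := Nat.exists_eq_succ_of_ne_zero h0.ne'
      have := Nat.find_min hex2 (m := m) (by omega)
      rw [hm]
      simpa using this
  have h12 : i₁ ≤ i₂ := by
    by_contra hlt
    push Not at hlt
    have := tm_mono k t (show i₂ + 1 ≤ i₁ by omega)
    omega
  have hnt : i₂ < nt k t := by
    by_contra hge
    push Not at hge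
    have := tm_mono k t hge
    rw [tm_nt] at this
    omega
  refine ⟨i₁, i₂, h12, hnt, ?_, ?_, ⟨h1', h1⟩, ⟨h2', h2⟩⟩
  · rintro i (hi | hi)
    · have e1 := tm_mono k t (show i + 1 ≤ i₁ by omega)
      have e2 := tm_mono k t (Nat.le_succ i)
      unfold dur cut
      simp only [Nat.succ_eq_add_one] at e2
      omega
    · have e1 := tm_mono k t (show i₂ + 1 ≤ i by omega)
      have e2 := tm_mono k t (Nat.le_succ i)
      unfold dur cut
      simp only [Nat.succ_eq_add_one] at e2
      omega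
  · intro i hi1' hi2'
    have e1 := tm_mono k t (show i₁ + 1 ≤ i by omega)
    have e2 := tm_mono k t (show i + 1 ≤ i₂ by omega)
    have e3 := tm_succ k t i
    rw [len_of_ne k (sub_ne_four k t (show i + 1 < nt k t by omega))] at e3
    unfold dur cut
    omega

/-- number of steps meeting a window -/
theorem card_dur_pos (k : ℕ) (t : Letter) {P Q : ℕ} (h : P ≤ Q) (hQ : Q ≤ len (k + 1) t) :
    (((Finset.range (nt k t)).filter fun i => 0 < dur k t P Q i).card : ℝ) ≤
      ((Q : ℝ) - P) / len k 4 + 2 := by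
  have hpos : (0 : ℝ) < len k 4 := by exact_mod_cast len_pos k 4
  rcases h.eq_or_lt with rfl | hlt
  · have : (Finset.range (nt k t)).filter (fun i => 0 < dur k t P P i) = ∅ := by
      ext i
      simp [dur, cut]
    rw [this]
    simp
  obtain ⟨i₁, i₂, h12, hnt, hout, hin, ⟨ha, hb⟩, ⟨hc, hd⟩⟩ := exists_first_last k t hlt hQ
  have hsub : (Finset.range (nt k t)).filter (fun i => 0 < dur k t P Q i) ⊆ Finset.Icc i₁ i₂ := by
    intro i hi
    rw [Finset.mem_filter] at hi
    rw [Finset.mem_Icc]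
    by_contra hne
    rw [not_and_or, not_le, not_le] at hne
    have := hout i hne
    omega
  have hcard := Finset.card_le_card hsub
  rw [Nat.card_Icc] at hcard
  have hlow : (i₂ - (i₁ + 1)) * len k 4 ≤ Q - P := by
    rcases Nat.lt_or_ge i₂ (i₁ + 1) with hh | hh
    · rw [Nat.sub_eq_zero_of_le hh.le]; simp
    · have key : ∀ m, tm k t (i₁ + 1) + m * len k 4 ≤ tm k t (i₁ + 1 + m) := by
        intro m
        induction m with
        | zero => simp
        | succ m ih =>
          have e := tm_succ k t (i₁ + 1 + m)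
          have e' := len_ge_four k (sub k t (i₁ + 1 + m))
          have e'' : (m + 1) * len k 4 = m * len k 4 + len k 4 := by ring
          rw [show i₁ + 1 + (m + 1) = i₁ + 1 + m + 1 by ring]
          omega
      have := key (i₂ - (i₁ + 1))
      rw [show i₁ + 1 + (i₂ - (i₁ + 1)) = i₂ by omega] at this
      omega
  have hlow' : ((i₂ : ℝ) - (i₁ + 1)) * len k 4 ≤ (Q : ℝ) - P := by
    rcases Nat.lt_or_ge i₂ (i₁ + 1) with hh | hh
    · have h1 : (i₂ : ℝ) - (i₁ + 1) ≤ 0 := by
        have : (i₂ : ℝ) ≤ i₁ + 1 := by exact_mod_cast hh.le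
        linarith
      have h2 : (0 : ℝ) ≤ (Q : ℝ) - P := by
        have : (P : ℝ) ≤ Q := by exact_mod_cast h
        linarith
      nlinarith
    · have : (((i₂ - (i₁ + 1)) * len k 4 : ℕ) : ℝ) ≤ ((Q - P : ℕ) : ℝ) := by exact_mod_cast hlow
      rw [Nat.cast_mul, Nat.cast_sub hh, Nat.cast_sub h] at this
      push_cast at this
      exact this
  have h3 : (i₂ : ℝ) - (i₁ + 1) ≤ ((Q : ℝ) - P) / len k 4 := by
    rw [le_div_iff₀ hpos]; exact hlow'
  have h4 : (((Finset.range (nt k t)).filter fun i => 0 < dur k t P Q i).card : ℝ) ≤ i₂ + 1 - i₁ := by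
    have : (((Finset.range (nt k t)).filter fun i => 0 < dur k t P Q i).card : ℝ) ≤
        ((i₂ + 1 - i₁ : ℕ) : ℝ) := by exact_mod_cast hcard
    rw [Nat.cast_sub (by omega)] at this
    push_cast at this
    exact this
  linarith

/-! ### The coarse vector of a window inside a block -/

/-- coarse vector of the window `[P,Q)` -/
noncomputable def cv (k : ℕ) (t : Letter) (P Q : ℕ) (g : Ga) : ℝ :=
  ∑ i ∈ Finset.range (nt k t), if Lb k t (i + 1) = g then (dur k t P Q i : ℝ) else 0

theorem cv_nonneg (k : ℕ) (t : Letter) (P Q : ℕ) (g : Ga) : 0 ≤ cv k t P Q g := by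
  unfold cv
  apply Finset.sum_nonneg
  intro i _
  split_ifs <;> positivity

theorem sum_cv (k : ℕ) (t : Letter) {P Q : ℕ} (h : P ≤ Q) (hQ : Q ≤ len (k + 1) t) :
    ∑ g, cv k t P Q g = (Q : ℝ) - P := by
  unfold cv
  rw [Finset.sum_comm]
  simp only [Finset.sum_ite_eq, Finset.mem_univ, if_true]
  have := sum_dur_nt k t h hQ
  have h2 : ((∑ i ∈ Finset.range (nt k t), dur k t P Q i : ℕ) : ℝ) = ((Q - P : ℕ) : ℝ) := by
    rw [this]
  rw [Nat.cast_sub h] at h2
  push_cast at h2
  exact h2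

theorem cw_cut (P₀ : Par) (X : ℝ) (k : ℕ) (t : Letter) {P Q : ℕ} (h : P ≤ Q) (g : Ga) (n : ℕ) :
    cw P₀ X P (cut k t P Q n) g =
      ∑ i ∈ Finset.range n, cw P₀ X (cut k t P Q i) (cut k t P Q (i + 1)) g := by
  induction n with
  | zero =>
    rw [cut_zero k t h]
    simp [cw]
  | succ n ih =>
    rw [Finset.sum_range_succ, ← ih]
    apply cw_add
    · have := cut_mono k t P Q (Nat.zero_le n)
      rwa [cut_zero k t h] at this
    · exact cut_mono k t P Q (Nat.le_succ n)

/-- `dev` of a step portion inside the block. -/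
theorem dev_step (E : Data) {θ : Ga → ℝ} {C : ℝ} {ε : ℕ → ℝ}
    (heq : ∀ (k : ℕ) (y : ℝ), 0 ≤ y → y < 1 → ∀ p q : ℕ, p ≤ q → q ≤ len k (E.typ k y) →
        dev E.par θ (E.w k * y) p q (ph (E.typ k y)) ≤ ε k * ((q : ℝ) - p) + C * EE k)
    (k : ℕ) {y : ℝ} (h0 : 0 ≤ y) (h1 : y < 1) {i : ℕ} (hi : i < nt k (E.typ (k + 1) y))
    {a b : ℕ} (hab : a ≤ b) (ha : tm k (E.typ (k + 1) y) i ≤ a)
    (hb : b ≤ tm k (E.typ (k + 1) y) (i + 1)) :
    dev E.par θ (E.w (k + 1) * y) a b (Lb k (E.typ (k + 1) y) (i + 1)) ≤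
      ε k * ((b : ℝ) - a) + C * EE k := by
  set t := E.typ (k + 1) y with ht
  obtain ⟨z0, z1, zt, -, -⟩ := typ_tower E k h0 h1 hi
  obtain ⟨ho, hl⟩ := block_mid E k h0 h1 hi
  rw [← ht] at zt ho hl
  have hb' := tm_succ k t i
  obtain ⟨a', rfl⟩ := Nat.exists_eq_add_of_le ha
  obtain ⟨b', rfl⟩ := Nat.exists_eq_add_of_le (ha.trans hab)
  have key := heq k ((y + i) * E.al k) z0 z1 a' b' (by omega) (by rw [zt]; omega)
  have e : dev E.par θ (E.w (k + 1) * y) (tm k t i + a') (tm k t i + b') (Lb k t (i + 1)) =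
      dev E.par θ (E.w k * ((y + i) * E.al k)) a' b' (ph (E.typ k ((y + i) * E.al k))) := by
    unfold dev
    have hL : Lb k t (i + 1) = Lb k t i + ph (sub k t i) := by
      unfold Lb
      rw [Finset.sum_range_succ]
    refine (Equiv.sum_comp (Equiv.addRight (Lb k t i)) _).symm.trans ?_
    apply Finset.sum_congr rfl
    intro g _
    rw [cw_shift, ho, hl, zt, hL]
    simp only [Equiv.coe_addRight]
    have e1 : g + Lb k t i - Lb k t i = g := by abel
    have e2 : g + Lb k t i - (Lb k t i + ph (sub k t i)) = g - ph (sub k t i) := by abel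
    rw [e1, e2]
    push_cast
    congr 2
    ring
  rw [e]
  refine key.trans (le_of_eq ?_)
  push_cast
  ring

/-- discrepancy of a window inside a block from its coarse description -/
theorem dev_cv (E : Data) {θ : Ga → ℝ} {C : ℝ} (hC : 0 ≤ C) {ε : ℕ → ℝ}
    (heq : ∀ (k : ℕ) (y : ℝ), 0 ≤ y → y < 1 → ∀ p q : ℕ, p ≤ q → q ≤ len k (E.typ k y) →
        dev E.par θ (E.w k * y) p q (ph (E.typ k y)) ≤ ε k * ((q : ℝ) - p) + C * EE k)
    (k : ℕ) {y : ℝ} (h0 : 0 ≤ y) (h1 : y < 1) {P Q : ℕ} (h : P ≤ Q)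
    (hQ : Q ≤ len (k + 1) (E.typ (k + 1) y)) :
    ∑ g, |(cw E.par (E.w (k + 1) * y) P Q g : ℝ) -
        ∑ g', cv k (E.typ (k + 1) y) P Q g' * θ (g - g')| ≤
      ε k * ((Q : ℝ) - P) + C * EE k * (((Q : ℝ) - P) / len k 4 + 2) := by
  set t := E.typ (k + 1) y with ht
  set X := E.w (k + 1) * y with hX
  have e1 : ∀ g, (cw E.par X P Q g : ℝ) = ∑ i ∈ Finset.range (nt k t),
      (cw E.par X (cut k t P Q i) (cut k t P Q (i + 1)) g : ℝ) := by
    intro g
    have := cw_cut E.par X k t h g (nt k t)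
    rw [cut_nt k t hQ] at this
    rw [this]
    push_cast
    rfl
  have e2 : ∀ g, ∑ g', cv k t P Q g' * θ (g - g') = ∑ i ∈ Finset.range (nt k t),
      (dur k t P Q i : ℝ) * θ (g - Lb k t (i + 1)) := by
    intro g
    unfold cv
    simp only [Finset.sum_mul]
    rw [Finset.sum_comm]
    apply Finset.sum_congr rfl
    intro i _
    simp only [ite_mul, zero_mul, Finset.sum_ite_eq, Finset.mem_univ, if_true]
  have e3 : ∑ g, |(cw E.par X P Q g : ℝ) - ∑ g', cv k t P Q g' * θ (g - g')| ≤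
      ∑ i ∈ Finset.range (nt k t), dev E.par θ X (cut k t P Q i) (cut k t P Q (i + 1))
        (Lb k t (i + 1)) := by
    unfold dev
    rw [Finset.sum_comm]
    apply Finset.sum_le_sum
    intro g _
    rw [e1, e2, ← Finset.sum_sub_distrib]
    refine (Finset.abs_sum_le_sum_abs _ _).trans (le_of_eq ?_)
    apply Finset.sum_congr rfl
    intro i _
    have hm := cut_mono k t P Q (Nat.le_succ i)
    simp only [Nat.succ_eq_add_one] at hm
    congr 2
    unfold dur
    rw [Nat.cast_sub hm]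
  refine e3.trans ?_
  have e4 : ∀ i ∈ Finset.range (nt k t), dev E.par θ X (cut k t P Q i) (cut k t P Q (i + 1))
        (Lb k t (i + 1)) ≤ ε k * (dur k t P Q i : ℝ) +
          if 0 < dur k t P Q i then C * EE k else 0 := by
    intro i hi
    rw [Finset.mem_range] at hi
    have hm := cut_mono k t P Q (Nat.le_succ i)
    simp only [Nat.succ_eq_add_one] at hm
    by_cases hd : 0 < dur k t P Q i
    · rw [if_pos hd]
      have hd' : cut k t P Q i < cut k t P Q (i + 1) := by
        unfold dur at hd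
        omega
      have hmm := tm_mono k t (Nat.le_succ i)
      simp only [Nat.succ_eq_add_one] at hmm
      have := dev_step E heq k h0 h1 hi (a := cut k t P Q i) (b := cut k t P Q (i + 1)) hm
        (by rw [← ht]; unfold cut at hd' ⊢; omega)
        (by rw [← ht]; unfold cut at hd' ⊢; omega)
      refine this.trans (le_of_eq ?_)
      unfold dur
      rw [Nat.cast_sub hm]
    · have hd' : dur k t P Q i = 0 := by omega
      rw [if_neg hd]
      have hc : cut k t P Q (i + 1) = cut k t P Q i := by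
        unfold dur at hd'
        omega
      rw [hc, hd']
      unfold dev
      simp [cw]
  refine (Finset.sum_le_sum e4).trans ?_
  rw [Finset.sum_add_distrib, ← Finset.mul_sum]
  have e5 : (∑ i ∈ Finset.range (nt k t), (dur k t P Q i : ℝ)) = (Q : ℝ) - P := by
    have := sum_dur_nt k t h hQ
    have h2 : ((∑ i ∈ Finset.range (nt k t), dur k t P Q i : ℕ) : ℝ) = ((Q - P : ℕ) : ℝ) := by
      rw [this]
    rw [Nat.cast_sub h] at h2
    push_cast at h2
    exact h2
  rw [e5]
  have e6 : (∑ i ∈ Finset.range (nt k t), if 0 < dur k t P Q i then C * (EE k : ℝ) else 0) =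
      C * EE k * (((Finset.range (nt k t)).filter fun i => 0 < dur k t P Q i).card : ℝ) := by
    rw [← Finset.sum_filter, Finset.sum_const, nsmul_eq_mul]
    ring
  rw [e6]
  have e7 := card_dur_pos k t h hQ
  have e8 : 0 ≤ C * (EE k : ℝ) := by positivity
  have := mul_le_mul_of_nonneg_left e7 e8
  linarith

/-! ### Sizes -/

theorem len_four_succ_ge (k : ℕ) : (NN k - 2) * len k 3 ≤ len (k + 1) 4 := by
  have h1 := len_succ_three k
  have h2 := len_succ_four k
  have h3 := (gR_lt k 3).1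
  have h4 : 2 ≤ NN k := by
    have h5 : 1 ≤ (k + 1) ^ 2 := Nat.one_le_pow _ _ (by omega)
    nlinarith [Nat.zero_le (HH k)]
  obtain ⟨n, hn⟩ := Nat.exists_eq_add_of_le h4
  rw [hn] at h1 ⊢
  have e1 : 2 + n - 1 = n + 1 := by omega
  have e2 : 2 + n - 2 = n := by omega
  rw [e1] at h1
  rw [e2]
  have : (n + 1) * len k 3 = n * len k 3 + len k 3 := by ring
  omega

theorem EE_le_len (k : ℕ) : (EE (k + 1) : ℝ) ≤ len (k + 1) 4 / ((k : ℝ) + 1) ^ 2 := by
  have h := len_four_succ_ge k
  have h3 := (gR_lt k 3).1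
  have hk : (0 : ℝ) < ((k : ℝ) + 1) ^ 2 := by positivity
  rw [le_div_iff₀ hk]
  have e : (HH k * len k 3) * (k + 1) ^ 2 ≤ len (k + 1) 4 := by
    refine le_trans ?_ h
    have : HH k * (k + 1) ^ 2 ≤ NN k - 2 := by
      have h5 : 1 ≤ (k + 1) ^ 2 := Nat.one_le_pow _ _ (by omega)
      have : HH k * (k + 1) ^ 2 + 2 ≤ NN k := by nlinarith
      omega
    nlinarith [Nat.zero_le (len k 3)]
  have e' : ((HH k * len k 3 * (k + 1) ^ 2 : ℕ) : ℝ) ≤ (len (k + 1) 4 : ℝ) := by exact_mod_cast e
  unfold EE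
  push_cast at e' ⊢
  linarith

theorem tm_gR (k : ℕ) (t : Letter) : tm k t (gR k t) = gR k t * len k 3 := by
  have := (gR_lt k t).2.2
  exact tm_eq k t (by omega)

theorem nt_ge (k : ℕ) (t : Letter) : NN k - 1 ≤ nt k t := by
  unfold nt
  split_ifs <;> omega

/-- a window which starts in the event zone of a block does not leave the block -/
theorem window_short (k : ℕ) (t : Letter) {p L : ℕ} (hL : L ≤ (k + 1) ^ 2 * EE (k + 1))
    (hp : p < tm k t (gR k t)) : p + L ≤ len (k + 1) t := by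
  have h1 := len_four_succ_ge k
  have h2 := len_ge_four (k + 1) t
  obtain ⟨h3, h4, -⟩ := gR_lt k t
  rw [tm_gR] at hp
  have h5 : 1 ≤ (k + 1) ^ 2 := Nat.one_le_pow _ _ (by omega)
  have h6 : (k + 1) ^ 2 * HH k + gR k t ≤ NN k - 2 := by
    have : (k + 1) ^ 2 * HH k + gR k t + 2 ≤ NN k := by nlinarith
    omega
  have h7 : ((k + 1) ^ 2 * HH k + gR k t) * len k 3 ≤ (NN k - 2) * len k 3 :=
    Nat.mul_le_mul_right _ h6
  have h8 : L ≤ (k + 1) ^ 2 * HH k * len k 3 := by
    refine hL.trans (le_of_eq ?_)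
    unfold EE
    ring
  nlinarith

theorem window_lt (k : ℕ) (t : Letter) {L : ℕ} (hL : L ≤ (k + 1) ^ 2 * EE (k + 1)) :
    L ≤ len (k + 1) t := by
  have h1 := len_four_succ_ge k
  have h2 := len_ge_four (k + 1) t
  obtain ⟨h3, h4, -⟩ := gR_lt k t
  have h5 : 1 ≤ (k + 1) ^ 2 := Nat.one_le_pow _ _ (by omega)
  have h6 : (k + 1) ^ 2 * HH k ≤ NN k - 2 := by
    have : (k + 1) ^ 2 * HH k + 2 ≤ NN k := by nlinarith
    omega
  have h7 : ((k + 1) ^ 2 * HH k) * len k 3 ≤ (NN k - 2) * len k 3 :=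
    Nat.mul_le_mul_right _ h6
  have h8 : L ≤ (k + 1) ^ 2 * HH k * len k 3 := by
    refine hL.trans (le_of_eq ?_)
    unfold EE
    ring
  omega

/-- labels in the rest zone -/
theorem Lb_rest (k : ℕ) (t : Letter) {i : ℕ} (h1 : gR k t ≤ i) (h2 : i ≤ nt k t) :
    Lb k t i = ph t := by
  have h3 := (gR_lt k t).2.2
  have h4 : 3 * mA k + eA t ≤ gR k t := by
    unfold gR eA
    have : (if t = 0 then 1 else 0) ≤ if t = 0 ∨ t = 1 ∨ t = 2 then 1 else 0 := by
      split_ifs <;> simp_all
    omega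
  rw [← Lb_nt k t, Lb_eq k t h2, Lb_eq k t le_rfl]
  rw [min_eq_right (h4.trans h1), min_eq_right h1, min_eq_right (h4.trans (h1.trans h2)),
    min_eq_right (h1.trans h2)]

/-- coarse vector of a window in the rest zone up to the end of the block -/
theorem cv_rest (k : ℕ) (t : Letter) {p : ℕ} (h1 : tm k t (gR k t) ≤ p)
    (h2 : p ≤ len (k + 1) t) (g : Ga) :
    cv k t p (len (k + 1) t) g = if ph t = g then (len (k + 1) t : ℝ) - p else 0 := by
  have e : ∀ i ∈ Finset.range (nt k t),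
      (if Lb k t (i + 1) = g then (dur k t p (len (k + 1) t) i : ℝ) else 0) =
      if ph t = g then (dur k t p (len (k + 1) t) i : ℝ) else 0 := by
    intro i hi
    rw [Finset.mem_range] at hi
    by_cases hd : gR k t ≤ i + 1
    · rw [Lb_rest k t hd (by omega)]
    · have : dur k t p (len (k + 1) t) i = 0 := by
        have m1 := tm_mono k t (show i + 1 ≤ gR k t by omega)
        have m2 := tm_mono k t (Nat.le_succ i)
        simp only [Nat.succ_eq_add_one] at m2
        unfold dur cut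
        omega
      rw [this]
      simp
  unfold cv
  rw [Finset.sum_congr rfl e]
  have := sum_cv k t h2 le_rfl
  split_ifs with h
  · have h3 := sum_dur_nt k t h2 le_rfl
    have h4 : ((∑ i ∈ Finset.range (nt k t), dur k t p (len (k + 1) t) i : ℕ) : ℝ) =
        ((len (k + 1) t - p : ℕ) : ℝ) := by rw [h3]
    rw [Nat.cast_sub h2] at h4
    push_cast at h4
    exact h4
  · simp

/-- The combinatorial lemma for windows of blocks, with a constant part before. -/
theorem comb_window (k : ℕ) (t : Letter) (s : Ga) {P Q : ℕ} (h : P ≤ Q)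
    (hQ : Q ≤ len (k + 1) t) {pre : ℝ} (hpre : 0 ≤ pre) (hpre1 : 0 < pre → P = 0)
    (T : Ga → ℝ) (hT : ∀ g, T g = (if s = g then pre else 0) + cv k t P Q (g - s))
    (h1 : 0 < T ![1, 0]) (h2' : 0 < T ![2, 0]) (h3 : 0 < T ![0, 1]) (h4 : 0 < T ![0, 2]) :
    T ![1, 0] ≤ (mA k + 1) * len k 3 ∧ T ![0, 2] ≤ (mB k + 1) * len k 3 ∧
    T ![1, 0] + T ![0, 2] + (ml k - 1) * len k 3 ≤ T 0 ∧
    (ml k : ℝ) * len k 3 ≤ pre + ((Q : ℝ) - P) := by
  rcases h.eq_or_lt with rfl | hlt
  · exfalso
    have hz : ∀ g, cv k t P P g = 0 := by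
      intro g
      unfold cv
      apply Finset.sum_eq_zero
      intro i _
      have : dur k t P P i = 0 := by simp [dur, cut]
      rw [this]
      simp
    rw [hT, hz] at h1 h2'
    have e1 : s = ![1, 0] := by
      by_contra hne
      rw [if_neg hne] at h1
      simp at h1
    have e2 : s = ![2, 0] := by
      by_contra hne
      rw [if_neg hne] at h2'
      simp at h2'
    rw [e1] at e2
    have := congrFun e2 0
    simp at this
    exact absurd this (by decide)
  obtain ⟨i₁, i₂, h12, hnt, hout, hin, ⟨ha, hb⟩, ⟨hc, hd⟩⟩ := exists_first_last k t hlt hQ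
  have hT' : ∀ g, T g = (if s = g then pre else 0) +
      ∑ i ∈ Finset.range (nt k t), if s + Lb k t (i + 1) = g then (dur k t P Q i : ℝ) else 0 := by
    intro g
    rw [hT]
    unfold cv
    congr 1
    apply Finset.sum_congr rfl
    intro i _
    have : Lb k t (i + 1) = g - s ↔ s + Lb k t (i + 1) = g := by
      constructor
      · intro h; rw [h]; abel
      · intro h; rw [← h]; abel
    simp only [this]
  have key := ubcomb k t s (h := (len k 3 : ℝ)) (pre := pre)
    (by exact_mod_cast len_pos k 3) hpre (M := nt k t) le_rfl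
    (fun i => (dur k t P Q i : ℝ)) (fun i => by positivity)
    (fun i => by exact_mod_cast (dur_le k t P Q i).trans (len_le_three k _)) h12 hnt
    (fun i hi => by exact_mod_cast hout i hi) (fun i hi hi' => by exact_mod_cast hin i hi hi')
    (fun hp => by
      have hP := hpre1 hp
      subst hP
      have hi1 : i₁ = 0 := by
        by_contra hne
        have m := tm_mono k t (Nat.one_le_iff_ne_zero.mpr hne)
        have e := tm_succ k t 0
        have e' := len_pos k (sub k t 0)
        simp only [zero_add] at e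
        omega
      refine ⟨hi1, fun hi2 => ?_⟩
      have e1 := tm_mono k t (show 0 + 1 ≤ i₂ by omega)
      have e3 := tm_succ k t 0
      rw [len_of_ne k (sub_ne_four k t (show 0 + 1 < nt k t by omega))] at e3
      have : dur k t 0 Q 0 = len k 3 := by
        have e0 : tm k t 0 = 0 := by simp [tm]
        unfold dur cut
        omega
      exact_mod_cast this) T hT' h1 h2' h3 h4
  obtain ⟨k1, k2, k3, k4⟩ := key
  refine ⟨k1, k2, k3, k4.trans (le_of_eq ?_)⟩
  congr 1
  have h3 := sum_dur_nt k t h hQ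
  have h4 : ((∑ i ∈ Finset.range (nt k t), dur k t P Q i : ℕ) : ℝ) =
      ((Q - P : ℕ) : ℝ) := by rw [h3]
  rw [Nat.cast_sub h] at h4
  push_cast at h4
  exact h4

/-! ### The main statement -/

theorem tendsto_eta {C : ℝ} {ε : ℕ → ℝ} (hε : Tendsto ε atTop (𝓝 0)) :
    Tendsto (fun k : ℕ => ε k + C * (EE k / len k 4) + 4 * C / (k : ℝ) ^ 2) atTop (𝓝 0) := by
  have h1 : Tendsto (fun k : ℕ => (EE k : ℝ) / len k 4) atTop (𝓝 0) := by
    rw [← tendsto_add_atTop_iff_nat 1]
    have hb : Tendsto (fun k : ℕ => 1 / ((k : ℝ) + 1)) atTop (𝓝 0) :=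
      tendsto_one_div_add_atTop_nhds_zero_nat
    refine squeeze_zero (fun k => by positivity) (fun k => ?_) hb
    have hp : (0 : ℝ) < len (k + 1) 4 := by exact_mod_cast len_pos (k + 1) 4
    rw [div_le_iff₀ hp]
    refine (EE_le_len k).trans ?_
    have hk : (0 : ℝ) < (k : ℝ) + 1 := by positivity
    rw [div_le_iff₀ (by positivity)]
    have : 1 / ((k : ℝ) + 1) * (len (k + 1) 4) * ((k : ℝ) + 1) ^ 2 =
        (len (k + 1) 4 : ℝ) * ((k : ℝ) + 1) := by
      field_simp
    rw [this]
    nlinarith [Nat.cast_nonneg (α := ℝ) k]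
  have h2 : Tendsto (fun k : ℕ => 4 * C / (k : ℝ) ^ 2) atTop (𝓝 0) := by
    apply Tendsto.div_atTop tendsto_const_nhds
    exact (tendsto_pow_atTop two_ne_zero).comp tendsto_natCast_atTop_atTop
  have h3 := (hε.add (h1.const_mul C)).add h2
  simpa using h3

theorem coarse (E : Data) {θ : Ga → ℝ} (hθ0 : ∀ g, 0 ≤ θ g) (hθ1 : ∑ g, θ g = 1)
    {C : ℝ} (hC : 0 ≤ C) {ε : ℕ → ℝ} (hε0 : ∀ k, 0 ≤ ε k) (hε : Tendsto ε atTop (𝓝 0))
    (heq : ∀ (k : ℕ) (y : ℝ), 0 ≤ y → y < 1 → ∀ p q : ℕ, p ≤ q → q ≤ len k (E.typ k y) →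
        dev E.par θ (E.w k * y) p q (ph (E.typ k y)) ≤ ε k * ((q : ℝ) - p) + C * EE k) :
    ∃ η : ℕ → ℝ, Tendsto η atTop (𝓝 0) ∧ ∀ k ≥ 1, ∀ x : ℝ, 0 ≤ x → x < 1 → ∀ L : ℕ,
      k ^ 2 * EE k ≤ L → L ≤ (k + 1) ^ 2 * EE (k + 1) →
      ∃ T : Ga → ℝ, (∀ g, 0 ≤ T g) ∧ ∑ g, T g = L ∧
        ∑ g, |(E.par.Cnt x L g : ℝ) - ∑ g', T g' * θ (g - g')| ≤ η k * L ∧
        ∀ s : Ga, 0 < T (![1, 0] - s) → 0 < T (![2, 0] - s) → 0 < T (![0, 1] - s) →
          0 < T (![0, 2] - s) →
          T (![1, 0] - s) ≤ (mA k + 1) * len k 3 ∧ T (![0, 2] - s) ≤ (mB k + 1) * len k 3 ∧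
          T (![1, 0] - s) + T (![0, 2] - s) + (ml k - 1) * len k 3 ≤ T (0 - s) ∧
          (ml k : ℝ) * len k 3 ≤ L := by
  refine ⟨_, tendsto_eta (C := C) hε, ?_⟩
  intro k hk x hx0 hx1 L hL1 hL2
  obtain ⟨y, hy0, hy1, p, hp, hpx⟩ := cover E (k + 1) hx0 hx1
  set t := E.typ (k + 1) y with ht
  set X := E.w (k + 1) * y with hX
  set y' := Int.fract (y + E.al (k + 1)) with hy'
  have hy'0 : 0 ≤ y' := Int.fract_nonneg _
  have hy'1 : y' < 1 := Int.fract_lt_one _
  set t' := E.typ (k + 1) y' with ht'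
  obtain ⟨hbo, hbl⟩ := block E (k + 1) hy0 hy1
  rw [← ht, ← hX, ← hy'] at hbo
  rw [← ht, ← hX] at hbl
  have hlen4 : (0 : ℝ) < len k 4 := by exact_mod_cast len_pos k 4
  have hkpos : (0 : ℝ) < (k : ℝ) ^ 2 := by positivity
  have hLk : (EE k : ℝ) ≤ L / (k : ℝ) ^ 2 := by
    rw [le_div_iff₀ hkpos]
    have : ((k ^ 2 * EE k : ℕ) : ℝ) ≤ (L : ℝ) := by exact_mod_cast hL1
    push_cast at this
    linarith
  have herr : ε k * (L : ℝ) + C * EE k * ((L : ℝ) / len k 4 + 4) ≤
      (ε k + C * (EE k / len k 4) + 4 * C / (k : ℝ) ^ 2) * L := by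
    have h1 : C * EE k * ((L : ℝ) / len k 4) = C * (EE k / len k 4) * L := by field_simp
    have h2 : C * EE k * 4 ≤ 4 * C / (k : ℝ) ^ 2 * L := by
      have := mul_le_mul_of_nonneg_left hLk (show 0 ≤ 4 * C by positivity)
      calc C * EE k * 4 = 4 * C * EE k := by ring
        _ ≤ 4 * C * (L / (k : ℝ) ^ 2) := this
        _ = 4 * C / (k : ℝ) ^ 2 * L := by ring
    nlinarith
  -- reduce to the vector relative to the beginning of the block
  suffices H : ∃ T : Ga → ℝ, (∀ g, 0 ≤ T g) ∧ ∑ g, T g = L ∧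
      ∑ g, |(cw E.par X p (p + L) g : ℝ) - ∑ g', T g' * θ (g - g')| ≤
        ε k * (L : ℝ) + C * EE k * ((L : ℝ) / len k 4 + 4) ∧
      ∀ s : Ga, 0 < T (![1, 0] - s) → 0 < T (![2, 0] - s) → 0 < T (![0, 1] - s) →
          0 < T (![0, 2] - s) →
          T (![1, 0] - s) ≤ (mA k + 1) * len k 3 ∧ T (![0, 2] - s) ≤ (mB k + 1) * len k 3 ∧
          T (![1, 0] - s) + T (![0, 2] - s) + (ml k - 1) * len k 3 ≤ T (0 - s) ∧
          (ml k : ℝ) * len k 3 ≤ L by
    obtain ⟨T, hT0, hT1, hT2, hT3⟩ := H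
    set Λ := E.par.Lab X p with hΛ
    refine ⟨fun g => T (g + Λ), fun g => hT0 _, ?_, ?_, ?_⟩
    · rw [← hT1]
      exact Equiv.sum_comp (Equiv.addRight Λ) T
    · refine le_trans (le_of_eq ?_) (hT2.trans herr)
      refine Eq.trans ?_ (Equiv.sum_comp (Equiv.addRight Λ) _)
      apply Finset.sum_congr rfl
      intro g _
      simp only [Equiv.coe_addRight]
      have e1 : E.par.Cnt x L g = cw E.par X p (p + L) (g + Λ) := by
        have := cw_shift E.par X p 0 L (g + Λ)
        rw [hpx, ← hΛ, add_sub_cancel_right, ← Cnt_eq_cw] at this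
        rw [← this]
        simp
      have e2 : ∑ g', T (g' + Λ) * θ (g - g') = ∑ g', T g' * θ (g + Λ - g') := by
        refine Eq.trans ?_ (Equiv.sum_comp (Equiv.addRight Λ) _)
        apply Finset.sum_congr rfl
        intro g' _
        simp only [Equiv.coe_addRight]
        rw [show g + Λ - (g' + Λ) = g - g' by abel]
      rw [e1, e2]
    · intro s h1 h2 h3 h4
      have e : ∀ a : Ga, a - s + Λ = a - (s - Λ) := fun a => by abel
      simp only [e] at h1 h2 h3 h4 ⊢
      exact hT3 (s - Λ) h1 h2 h3 h4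
  by_cases hcase : p + L ≤ len (k + 1) t
  · -- the window lies in one block
    refine ⟨cv k t p (p + L), cv_nonneg k t p (p + L), ?_, ?_, ?_⟩
    · rw [sum_cv k t (Nat.le_add_right p L) hcase]
      push_cast
      ring
    · have := dev_cv E hC heq k hy0 hy1 (P := p) (Q := p + L) (Nat.le_add_right p L) hcase
      rw [← ht, ← hX] at this
      refine this.trans ?_
      push_cast
      have e : (p : ℝ) + L - p = L := by ring
      rw [e]
      have : 0 ≤ C * (EE k : ℝ) := by positivity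
      nlinarith
    · intro s h1 h2 h3 h4
      have := comb_window k t s (P := p) (Q := p + L) (Nat.le_add_right p L) hcase (pre := 0)
        le_rfl (fun h => absurd h (lt_irrefl 0)) (fun g => cv k t p (p + L) (g - s))
        (fun g => by simp) h1 h2 h3 h4
      obtain ⟨k1, k2, k3, k4⟩ := this
      refine ⟨k1, k2, k3, k4.trans (le_of_eq ?_)⟩
      push_cast
      ring
  · push Not at hcase
    have hrest : tm k t (gR k t) ≤ p := by
      by_contra hlt
      push Not at hlt
      exact absurd (window_short k t hL2 hlt) (by omega)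
    set ℓ := len (k + 1) t with hℓ
    obtain ⟨L', hL'⟩ : ∃ L', p + L = ℓ + L' := ⟨p + L - ℓ, by omega⟩
    have hL'le : L' ≤ len (k + 1) t' := by
      have := window_lt k t' hL2
      omega
    have hcasts : (p : ℝ) + L = ℓ + L' := by exact_mod_cast hL'
    have hcw : ∀ g, cw E.par X p (p + L) g =
        cw E.par X p ℓ g + cw E.par (E.w (k + 1) * y') 0 L' (g - ph t) := by
      intro g
      rw [cw_add E.par X (p := p) (q := ℓ) (r := p + L) hp.le hcase.le]
      congr 1
      have := cw_shift E.par X ℓ 0 L' g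
      rw [hbo, hbl] at this
      rw [← this, hL']
      simp
    refine ⟨fun g => (if ph t = g then (ℓ : ℝ) - p else 0) + cv k t' 0 L' (g - ph t), ?_, ?_, ?_, ?_⟩
    · intro g
      have h1 := cv_nonneg k t' 0 L' (g - ph t)
      have h2 : (p : ℝ) ≤ ℓ := by exact_mod_cast hp.le
      show 0 ≤ (if ph t = g then (ℓ : ℝ) - p else 0) + cv k t' 0 L' (g - ph t)
      split_ifs <;> linarith
    · rw [Finset.sum_add_distrib]
      have e1 : ∑ g, cv k t' 0 L' (g - ph t) = L' := by
        have := sum_cv k t' (Nat.zero_le L') hL'le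
        rw [Nat.cast_zero, sub_zero] at this
        rw [← this]
        exact Equiv.sum_comp (Equiv.subRight (ph t)) (cv k t' 0 L')
      rw [e1]
      simp only [Finset.sum_ite_eq, Finset.mem_univ, if_true]
      linarith
    · have d1 := dev_cv E hC heq k hy0 hy1 (P := p) (Q := ℓ) hp.le (le_of_eq rfl)
      rw [← ht, ← hX] at d1
      have d2 := dev_cv E hC heq k hy'0 hy'1 (P := 0) (Q := L') (Nat.zero_le _) hL'le
      rw [← ht'] at d2
      have hsum : ∑ g, |(cw E.par X p (p + L) g : ℝ) - ∑ g', ((if ph t = g' then (ℓ : ℝ) - p else 0) +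
          cv k t' 0 L' (g' - ph t)) * θ (g - g')| ≤
          ∑ g, |(cw E.par X p ℓ g : ℝ) - ∑ g', cv k t p ℓ g' * θ (g - g')| +
          ∑ g, |(cw E.par (E.w (k + 1) * y') 0 L' g : ℝ) - ∑ g', cv k t' 0 L' g' * θ (g - g')| := by
        rw [← Equiv.sum_comp (Equiv.subRight (ph t))
          (fun g => |(cw E.par (E.w (k + 1) * y') 0 L' g : ℝ) - ∑ g', cv k t' 0 L' g' * θ (g - g')|),
          ← Finset.sum_add_distrib]
        apply Finset.sum_le_sum
        intro g _
        simp only [Equiv.subRight_apply]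
        have e1 : ∑ g', ((if ph t = g' then (ℓ : ℝ) - p else 0) +
            cv k t' 0 L' (g' - ph t)) * θ (g - g') =
            ∑ g', cv k t p ℓ g' * θ (g - g') + ∑ g', cv k t' 0 L' g' * θ (g - ph t - g') := by
          rw [← Equiv.sum_comp (Equiv.subRight (ph t))
            (fun g' => cv k t' 0 L' g' * θ (g - ph t - g')), ← Finset.sum_add_distrib]
          apply Finset.sum_congr rfl
          intro g' _
          simp only [Equiv.subRight_apply]
          rw [cv_rest k t hrest hp.le g', ← hℓ, add_mul]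
          rw [show g - ph t - (g' - ph t) = g - g' by abel]
        rw [e1, hcw g]
        push_cast
        refine le_trans (le_of_eq ?_) (abs_add_le _ _)
        congr 1
        ring
      refine hsum.trans ((add_le_add d1 d2).trans ?_)
      have e : (ℓ : ℝ) - p + ((L' : ℝ) - (0 : ℕ)) = L := by push_cast; linarith
      have e' : ε k * ((ℓ : ℝ) - p) + C * EE k * (((ℓ : ℝ) - p) / len k 4 + 2) +
          (ε k * ((L' : ℝ) - (0 : ℕ)) + C * EE k * (((L' : ℝ) - (0 : ℕ)) / len k 4 + 2)) =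
          ε k * ((ℓ : ℝ) - p + ((L' : ℝ) - (0 : ℕ))) +
          C * EE k * (((ℓ : ℝ) - p + ((L' : ℝ) - (0 : ℕ))) / len k 4 + 4) := by
        ring
      rw [e', e]
    · intro s h1 h2 h3 h4
      have h5 : (p : ℝ) ≤ ℓ := by exact_mod_cast hp.le
      have := comb_window k t' (ph t + s) (P := 0) (Q := L') (Nat.zero_le _) hL'le
        (pre := (ℓ : ℝ) - p) (by linarith) (fun _ => rfl)
        (fun g => (if ph t = g - s then (ℓ : ℝ) - p else 0) + cv k t' 0 L' (g - s - ph t))
        (fun g => by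
          have : ph t = g - s ↔ ph t + s = g := by
            constructor
            · intro h; rw [h]; abel
            · intro h; rw [← h]; abel
          simp only [this]
          rw [show g - s - ph t = g - (ph t + s) by abel]) h1 h2 h3 h4
      obtain ⟨k1, k2, k3, k4⟩ := this
      refine ⟨k1, k2, k3, k4.trans (le_of_eq ?_)⟩
      push_cast
      linarith

end Pool.Agent.helper18.Rot
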