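import Mathlib
import Pool.Agent.helper54.Rot.Params
import Pool.Agent.helper54.Rot.Comb
import Pool.Agent.helper30.Rot.Eq
import Pool.Agent.helper30.Rot.Sepcost
import Pool.Agent.helper77.Rot.Ub
import Pool.Agent.helper77.Rot.Lb

/-!
# Summary of the symbolic part
-/

open Topology Filter Set

namespace Pool.Agent.helper18.Rot

open Pool.Agent.helper18.Rot.Sym

theorem sum_Pxi {θ : Ga → ℝ} (hθ1 : ∑ g, θ g = 1) (ξ : ℝ) : ∑ g, Pxi θ ξ g = 1 := by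
  have h : ∀ a : Ga, ∑ g, θ (g - a) = 1 := fun a =>
    (Equiv.sum_comp (Equiv.subRight a) θ).trans hθ1
  simp only [Pool.Agent.helper77.Rot.Pxi_eq, Finset.sum_add_distrib, ← Finset.mul_sum,
    ← Finset.sum_div, h, hθ1]
  ring

theorem tendsto_HH_len {κ : ℕ → ℕ} (hκ : Tendsto κ atTop atTop) :
    Tendsto (fun i => HH (κ i) * len (κ i) 3) atTop atTop := by
  refine tendsto_atTop_mono (fun i => ?_) hκ
  have h1 := Pool.Agent.helper54.Rot.HH_eq (κ i)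
  have h2 : 1 ≤ jj (κ i) := by unfold jj; omega
  have h3 : 0 < len (κ i) 3 := Pool.Agent.helper54.Rot.len_pos (κ i) 3
  have h4 : κ i ≤ HH (κ i) := by
    rw [h1]; nlinarith
  calc κ i = κ i * 1 := (mul_one _).symm
    _ ≤ HH (κ i) * len (κ i) 3 := Nat.mul_le_mul h4 h3

theorem symbolic : ∃ (P : Par) (p : ℝ → Ga → ℝ),
    (∃ p₀ p₁ : Ga → ℝ, ∀ ξ g, p ξ g = p₀ g + ξ * p₁ g) ∧ (∀ ξ, ∑ g, p ξ g = 1) ∧
    (∀ (x : ℕ → ℝ) (s : ℕ → Ga) (L : ℕ → ℕ) (ξ : ℝ), (∀ i, 0 ≤ x i ∧ x i < 1) →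
      Tendsto L atTop atTop → 0 < ξ → ξ < 3 →
      (∀ g, Tendsto (fun i => (P.Cnt (x i) (L i) (g - s i) : ℝ) / L i) atTop (𝓝 (p ξ g))) →
      ξ = 1 ∨ ∃ j : ℕ, 1 ≤ j ∧ ξ = 1 + 1 / j) ∧
    (∀ j : ℕ, 1 ≤ j → ∃ (C : ℝ) (x : ℕ → ℝ) (L : ℕ → ℕ), (∀ i, 0 ≤ x i ∧ x i < 1) ∧
      Tendsto L atTop atTop ∧ (∀ i, ∀ m < L i, ∀ q, P.dlo (x i) m q ≠ 0 ∧ P.dhi (x i) m q ≠ 0) ∧
      (∀ i, P.cost (x i) (L i) ≤ C * L i) ∧
      ∀ g, Tendsto (fun i => (P.Cnt (x i) (L i) g : ℝ) / L i) atTop (𝓝 (p (1 + 1 / j) g))) := by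
  obtain ⟨E⟩ := Pool.Agent.helper54.Rot.data_exists
  obtain ⟨θ, hθ0, hθ1, hθ2, C, ε, hC, hε0, hε, heq⟩ := Pool.Agent.helper30.Rot.eq_main E
  refine ⟨E.par, Pxi θ, ?_, sum_Pxi hθ1, ?_, ?_⟩
  · refine ⟨fun g => Pxi θ 0 g, fun g => Pxi θ 1 g - Pxi θ 0 g, fun ξ g => ?_⟩
    simp only [Pool.Agent.helper77.Rot.Pxi_eq]
    ring
  · intro x s L ξ hx hL h0 h3 h
    exact Pool.Agent.helper77.Rot.ub E hθ0 hθ1 hθ2 hC hε0 hε heq x s L ξ hx hL h0 h3 h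
  · intro j hj
    obtain ⟨κ, hκ, hκj⟩ := extraction_of_frequently_atTop
      (Pool.Agent.helper54.Rot.jj_frequently j hj)
    obtain ⟨C', hC'⟩ := Pool.Agent.helper30.Rot.lb_cost E
    refine ⟨C', fun i => E.w (κ i + 1) * (1 / 2), fun i => HH (κ i) * len (κ i) 3, fun i => ?_,
      tendsto_HH_len hκ.tendsto_atTop, fun i => (hC' (κ i)).1, fun i => (hC' (κ i)).2, ?_⟩
    · have h1 : 0 < E.w (κ i + 1) := Finset.prod_pos fun j _ => E.al_pos j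
      have h2 : E.w (κ i + 1) ≤ 1 := Finset.prod_le_one (fun j _ => (E.al_pos j).le)
        fun j _ => by have := E.al_lt j; linarith
      constructor <;> linarith
    · exact Pool.Agent.helper77.Rot.lb E hθ0 hθ1 hC hε0 hε heq j hj κ hκ.tendsto_atTop hκj

end Pool.Agent.helper18.Rot
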